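import Pool.Graph.R_pool_sql_team_seeded_620a6dc7.helper24_UT_.Le
import Pool.Graph.R_pool_sql_team_seeded_620a6dc7.helper24_UT_.Mkt
import Pool.Graph.R_pool_sql_team_seeded_620a6dc7.helper24_UT_.Mk
import Pool.Graph.R_pool_sql_team_seeded_620a6dc7.helper24_UT_.Ch1
import Pool.Graph.R_pool_sql_team_seeded_620a6dc7.helper24_UT_.Hb
import Pool.Graph.R_pool_sql_team_seeded_620a6dc7.helper24_UT_.Ii13
import Pool.Graph.R_pool_sql_team_seeded_620a6dc7.helper24_UT_.Ti13
import Pool.Graph.R_pool_sql_team_seeded_620a6dc7.helper24_UT_.Vdc2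
import Pool.Graph.R_pool_sql_team_seeded_620a6dc7.helper24_UT_.I213
import Pool.Graph.R_pool_sql_team_seeded_620a6dc7.helper24_UT_.Frl13
import Pool.Graph.R_pool_sql_team_seeded_620a6dc7.helper24_UT_.Fr13
import Pool.Graph.R_pool_sql_team_seeded_620a6dc7.helper24_UT_.Sil13
import Pool.Graph.R_pool_sql_team_seeded_620a6dc7.helper24_UT_.Si13
import Pool.Graph.R_pool_sql_team_seeded_620a6dc7.helper24_UT_.Gb2
import Pool.Graph.R_pool_sql_team_seeded_620a6dc7.helper24_UT_.Wpar
import Pool.Graph.R_pool_sql_team_seeded_620a6dc7.helper24_UT_.Mi12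
import Pool.Graph.R_pool_sql_team_seeded_620a6dc7.helper24_UT_.Mi2
import Pool.Graph.R_pool_sql_team_seeded_620a6dc7.helper24_UT_.Mi1
import Pool.Graph.R_pool_sql_team_seeded_620a6dc7.helper24_UT_.Mina
import Pool.Graph.R_pool_sql_team_seeded_620a6dc7.helper24_UT_.Miz
import Pool.Graph.R_pool_sql_team_seeded_620a6dc7.helper24_UT_.Min
import Pool.Graph.R_pool_sql_team_seeded_620a6dc7.helper24_UT_.Mj
import Pool.Graph.R_pool_sql_team_seeded_620a6dc7.helper24_UT_.Fam

/-!
Assembly of the library project UT (helper24 of an earlier run): the primes minus their sieve model along families of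
nearly minimal additive energy in windows of length `N ^ (1 / 3 + ε)`.
-/

set_option autoImplicit false

namespace Pool.Agent.H79.Q

open Pool.Agent.helper24_UT

theorem t_FRL13 : S_FRL13 := Frl13.main Hb.main (Ii13.main Ch.t_MAP Ch.t_T1) (Ti13.main) (I213.main Vdc2.main)
theorem t_FR13 : S_FR13 := Fr13.main t_FRL13
theorem t_SIL13 : S_SIL13 := Sil13.main Win.main t_FR13
theorem t_SI13 : S_SI13 := Si13.main t_SIL13
theorem t_MINA : S_MINA := Mina.main Hb.main Mi2.main Mi1.main (Mi12.main Gb2.main Wpar.main)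
theorem t_MIN : S_MIN := Min.main t_MINA Miz.main
theorem t_MK : S_MK (1 / 3) := Mk.main Mj.main t_SI13 t_MIN
theorem t_MKT : S_MKT (1 / 3) := Mkt.main (1 / 3) (by norm_num) (by norm_num) t_MK
theorem t_LE : S_LE (1 / 3) := Le.main (1 / 3) (by norm_num) Fam.main t_MKT

end Pool.Agent.H79.Q
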