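import Mathlib

/-!
Sums over shifted intervals, partial summation, and the variation of `1 / log |f(m)|`.
-/

set_option autoImplicit false

namespace Pool.Agent.H79.Q.Sh

open Finset

/-- the primitive of a function on the integers -/
noncomputable def Ph (F : ℤ → ℝ) (j : ℤ) : ℝ :=
  if 0 ≤ j then ∑ t ∈ Icc 1 j.toNat, F (t : ℤ) else -(F 0 + ∑ t ∈ Icc 1 (-j - 1).toNat, F (-(t : ℤ)))

lemma Ph_succ (F : ℤ → ℝ) (j : ℤ) : Ph F (j + 1) = Ph F j + F (j + 1) := by
  unfold Ph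
  rcases lt_trichotomy j (-1) with h | h | h
  · rw [if_neg (by omega), if_neg (by omega)]
    obtain ⟨n, hn⟩ : ∃ n : ℕ, (-(j + 1) - 1).toNat = n ∧ (-j - 1).toNat = n + 1 := ⟨(-(j + 1) - 1).toNat, rfl, by omega⟩
    rw [hn.1, hn.2, Finset.sum_Icc_succ_top (by omega)]
    have e : j + 1 = -(((n + 1 : ℕ)) : ℤ) := by
      have := hn.2
      omega
    rw [e]
    ring
  · subst h
    simp
  · rw [if_pos (by omega), if_pos (by omega)]
    obtain ⟨n, hn⟩ : ∃ n : ℕ, j.toNat = n ∧ (j + 1).toNat = n + 1 := ⟨j.toNat, rfl, by omega⟩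
    rw [hn.1, hn.2, Finset.sum_Icc_succ_top (by omega)]
    have e : j + 1 = (((n + 1 : ℕ)) : ℤ) := by
      have := hn.2
      omega
    rw [e]

lemma sum_Ph (F : ℤ → ℝ) (k : ℤ) (y : ℕ) : ∑ m ∈ Icc 1 y, F ((m : ℤ) + k) = Ph F (k + y) - Ph F k := by
  induction y with
  | zero => simp
  | succ n ih =>
    rw [Finset.sum_Icc_succ_top (by omega), ih]
    have h := Ph_succ F (k + n)
    push_cast
    rw [show k + ((n : ℤ) + 1) = k + n + 1 by ring, h, show (n : ℤ) + 1 + k = k + n + 1 by ring]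
    ring

lemma Ph_bd (F : ℤ → ℝ) (R : ℝ) (Tm : ℕ) (h1 : ∀ T ≤ Tm, |∑ t ∈ Icc 1 T, F (t : ℤ)| ≤ R)
    (h2 : ∀ T ≤ Tm, |∑ t ∈ Icc 1 T, F (-(t : ℤ))| ≤ R) (h0 : |F 0| ≤ R) (j : ℤ) (hj : |j| ≤ Tm) :
    |Ph F j| ≤ 2 * R := by
  have hR : 0 ≤ R := (abs_nonneg _).trans h0
  have hj' := abs_le.1 hj
  unfold Ph
  split_ifs with h
  · have := h1 j.toNat (by omega)
    linarith
  · have h3 := h2 (-j - 1).toNat (by omega)
    rw [abs_neg]
    have := abs_add_le (F 0) (∑ t ∈ Icc 1 (-j - 1).toNat, F (-(t : ℤ)))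
    linarith

theorem shift (F : ℤ → ℝ) (R : ℝ) (Tm : ℕ) (h1 : ∀ T ≤ Tm, |∑ t ∈ Icc 1 T, F (t : ℤ)| ≤ R)
    (h2 : ∀ T ≤ Tm, |∑ t ∈ Icc 1 T, F (-(t : ℤ))| ≤ R) (h0 : |F 0| ≤ R) (k : ℤ) (y : ℕ)
    (hk : |k| ≤ Tm) (hky : |k + y| ≤ Tm) : |∑ m ∈ Icc 1 y, F ((m : ℤ) + k)| ≤ 4 * R := by
  rw [sum_Ph]
  have h3 := Ph_bd F R Tm h1 h2 h0 k hk
  have h4 := Ph_bd F R Tm h1 h2 h0 (k + y) hky
  have := abs_sub (Ph F (k + y)) (Ph F k)
  linarith

/-- partial summation -/
lemma abel_eq (E w : ℕ → ℝ) (y : ℕ) (hy : 1 ≤ y) : ∑ m ∈ Icc 1 y, E m * w m =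
    (∑ m ∈ Icc 1 y, E m) * w y - ∑ T ∈ Ico 1 y, (∑ m ∈ Icc 1 T, E m) * (w (T + 1) - w T) := by
  induction y, hy using Nat.le_induction with
  | base => simp
  | succ n hn ih =>
    rw [Finset.sum_Icc_succ_top (by omega), Finset.sum_Icc_succ_top (by omega), ih, Finset.sum_Ico_succ_top hn]
    ring

theorem abel (E w : ℕ → ℝ) (y : ℕ) (R V W : ℝ) (hV : 0 ≤ V) (hS : ∀ T ≤ y, |∑ m ∈ Icc 1 T, E m| ≤ R)
    (hw : ∀ m, |w m| ≤ V) (hTV : ∑ T ∈ Ico 1 y, |w (T + 1) - w T| ≤ W) :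
    |∑ m ∈ Icc 1 y, E m * w m| ≤ R * (V + W) := by
  have hR : 0 ≤ R := (abs_nonneg _).trans (hS 0 (by omega))
  have hW : 0 ≤ W := le_trans (Finset.sum_nonneg fun _ _ => abs_nonneg _) hTV
  rcases Nat.eq_zero_or_pos y with h | h
  · subst h
    simp
    positivity
  · rw [abel_eq E w y h]
    have h1 : |(∑ m ∈ Icc 1 y, E m) * w y| ≤ R * V := by
      rw [abs_mul]
      exact mul_le_mul (hS y le_rfl) (hw y) (abs_nonneg _) hR
    have h2 : |∑ T ∈ Ico 1 y, (∑ m ∈ Icc 1 T, E m) * (w (T + 1) - w T)| ≤ R * W := by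
      refine (Finset.abs_sum_le_sum_abs _ _).trans ?_
      refine le_trans ?_ (mul_le_mul_of_nonneg_left hTV hR)
      rw [Finset.mul_sum]
      refine Finset.sum_le_sum fun T hT => ?_
      rw [abs_mul]
      rw [mem_Ico] at hT
      exact mul_le_mul_of_nonneg_right (hS T (by omega)) (abs_nonneg _)
    have := abs_sub ((∑ m ∈ Icc 1 y, E m) * w y) (∑ T ∈ Ico 1 y, (∑ m ∈ Icc 1 T, E m) * (w (T + 1) - w T))
    linarith

lemma tv_down (g : ℕ → ℝ) (u v : ℕ) (huv : u ≤ v) (h : ∀ m, u ≤ m → m < v → g (m + 1) ≤ g m) :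
    ∑ m ∈ Ico u v, |g (m + 1) - g m| = g u - g v := by
  induction v, huv using Nat.le_induction with
  | base => simp
  | succ n hn ih =>
    rw [Finset.sum_Ico_succ_top hn, ih (fun m hm1 hm2 => h m hm1 (by omega)),
      abs_of_nonpos (by have := h n hn (by omega); linarith)]
    ring

lemma tv_up (g : ℕ → ℝ) (u v : ℕ) (huv : u ≤ v) (h : ∀ m, u ≤ m → m < v → g m ≤ g (m + 1)) :
    ∑ m ∈ Ico u v, |g (m + 1) - g m| = g v - g u := by
  induction v, huv using Nat.le_induction with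
  | base => simp
  | succ n hn ih =>
    rw [Finset.sum_Ico_succ_top hn, ih (fun m hm1 hm2 => h m hm1 (by omega)),
      abs_of_nonneg (by have := h n hn (by omega); linarith)]
    ring

lemma tv_mono (ψ : ℤ → ℝ) (hmono : Monotone ψ) (V : ℝ) (h0 : ∀ t, 0 ≤ ψ t) (h1 : ∀ t, ψ t ≤ V) (f : ℕ → ℤ)
    (m0 : ℕ) (hm0 : 1 ≤ m0) (hd : ∀ m, m < m0 → f (m + 1) ≤ f m) (hu : ∀ m, m0 ≤ m → f m ≤ f (m + 1)) (y : ℕ) :
    ∑ m ∈ Ico 1 y, |ψ (f (m + 1)) - ψ (f m)| ≤ 2 * V := by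
  have hV : 0 ≤ V := (h0 0).trans (h1 0)
  rcases Nat.eq_zero_or_pos y with h | hy
  · subst h
    simp
    positivity
  · rcases le_total y m0 with h | h
    · rw [tv_down (fun m => ψ (f m)) 1 y hy (fun m _ hm => hmono (hd m (by omega)))]
      have := h1 (f 1)
      have := h0 (f y)
      linarith
    · rw [← Finset.sum_Ico_consecutive _ hm0 h,
        tv_down (fun m => ψ (f m)) 1 m0 hm0 (fun m _ hm => hmono (hd m (by omega))),
        tv_up (fun m => ψ (f m)) m0 y h (fun m hm _ => hmono (hu m hm))]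
      have := h1 (f 1)
      have := h0 (f m0)
      have := h1 (f y)
      linarith

/-- `1 / log |v|` if `|v| ≥ 2`, `0` otherwise -/
noncomputable def iv (v : ℤ) : ℝ := if 2 ≤ |v| then 1 / Real.log |(v : ℝ)| else 0

noncomputable def p1 (v : ℤ) : ℝ := if v ≤ -2 then 1 / Real.log |(v : ℝ)| else if v ≤ 1 then 1 / Real.log 2 else 2 / Real.log 2

noncomputable def p2 (v : ℤ) : ℝ := if v ≤ -2 then 0 else if v ≤ 1 then 1 / Real.log 2 else 2 / Real.log 2 - 1 / Real.log |(v : ℝ)|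

lemma log2 : (0 : ℝ) < Real.log 2 := Real.log_pos (by norm_num)

lemma inv_log_le (v : ℤ) (hv : 2 ≤ |v|) : 1 / Real.log |(v : ℝ)| ≤ 1 / Real.log 2 := by
  apply one_div_le_one_div_of_le log2
  apply Real.log_le_log (by norm_num)
  exact_mod_cast hv

lemma inv_log_nonneg (v : ℤ) (hv : 2 ≤ |v|) : 0 ≤ 1 / Real.log |(v : ℝ)| := by
  have h : (2 : ℝ) ≤ |(v : ℝ)| := by exact_mod_cast hv
  have := Real.log_nonneg (show (1 : ℝ) ≤ |(v : ℝ)| by linarith)
  positivity

lemma iv_eq (v : ℤ) : iv v = p1 v - p2 v := by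
  unfold iv p1 p2
  by_cases h1 : v ≤ -2
  · rw [if_pos h1, if_pos h1, if_pos (by rw [abs_of_neg (by omega)]; omega), sub_zero]
  · by_cases h2 : v ≤ 1
    · rw [if_neg h1, if_neg h1, if_pos h2, if_pos h2, if_neg, sub_self]
      intro h
      rcases abs_cases v with h3 | h3 <;> omega
    · rw [if_neg h1, if_neg h1, if_neg h2, if_neg h2, if_pos (by rw [abs_of_pos (by omega)]; omega)]
      ring

lemma iv_bd (v : ℤ) : |iv v| ≤ 1 / Real.log 2 := by
  unfold iv
  have := log2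
  split_ifs with h
  · rw [abs_of_nonneg (inv_log_nonneg v h)]
    exact inv_log_le v h
  · rw [abs_zero]
    positivity

lemma p1_mono : Monotone p1 := by
  intro u v huv
  have hl := log2
  unfold p1
  by_cases h1 : v ≤ -2
  · rw [if_pos h1, if_pos (by omega)]
    have h2 : |(v : ℝ)| ≤ |(u : ℝ)| := by
      have h : |v| ≤ |u| := by rw [abs_of_neg (by omega), abs_of_neg (by omega)]; omega
      exact_mod_cast h
    have h3 : (2 : ℝ) ≤ |(v : ℝ)| := by
      have h : 2 ≤ |v| := by rw [abs_of_neg (by omega)]; omega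
      exact_mod_cast h
    apply one_div_le_one_div_of_le (Real.log_pos (by linarith))
    exact Real.log_le_log (by linarith) h2
  · rw [if_neg h1]
    by_cases h2 : v ≤ 1
    · rw [if_pos h2]
      by_cases h3 : u ≤ -2
      · rw [if_pos h3]
        exact inv_log_le u (by rw [abs_of_neg (by omega)]; omega)
      · rw [if_neg h3, if_pos (by omega)]
    · rw [if_neg h2]
      have h4 : 1 / Real.log 2 ≤ 2 / Real.log 2 := by
        apply div_le_div_of_nonneg_right (by norm_num) hl.le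
      by_cases h3 : u ≤ -2
      · rw [if_pos h3]
        exact (inv_log_le u (by rw [abs_of_neg (by omega)]; omega)).trans h4
      · rw [if_neg h3]
        split_ifs
        · exact h4
        · exact le_rfl

lemma p2_mono : Monotone p2 := by
  intro u v huv
  have hl := log2
  have h0 : 0 ≤ 1 / Real.log 2 := by positivity
  have h12 : 2 / Real.log 2 = 1 / Real.log 2 + 1 / Real.log 2 := by ring
  unfold p2
  by_cases h1 : v ≤ -2
  · rw [if_pos h1, if_pos (by omega)]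
  · rw [if_neg h1]
    by_cases h2 : v ≤ 1
    · rw [if_pos h2]
      by_cases h3 : u ≤ -2
      · rw [if_pos h3]
        exact h0
      · rw [if_neg h3, if_pos (by omega)]
    · rw [if_neg h2]
      have h4 := inv_log_le v (by rw [abs_of_pos (by omega)]; omega)
      split_ifs with h3 h5
      · linarith
      · linarith
      · have h6 : 1 / Real.log |(v : ℝ)| ≤ 1 / Real.log |(u : ℝ)| := by
          have h7 : |(u : ℝ)| ≤ |(v : ℝ)| := by
            have h : |u| ≤ |v| := by rw [abs_of_pos (by omega), abs_of_pos (by omega)]; omega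
            exact_mod_cast h
          have h8 : (2 : ℝ) ≤ |(u : ℝ)| := by
            have h : 2 ≤ |u| := by rw [abs_of_pos (by omega)]; omega
            exact_mod_cast h
          apply one_div_le_one_div_of_le (Real.log_pos (by linarith))
          exact Real.log_le_log (by linarith) h7
        linarith

lemma p1_bd (v : ℤ) : 0 ≤ p1 v ∧ p1 v ≤ 2 / Real.log 2 := by
  have hl := log2
  have h0 : 0 ≤ 1 / Real.log 2 := by positivity
  have h12 : 2 / Real.log 2 = 1 / Real.log 2 + 1 / Real.log 2 := by ring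
  unfold p1
  split_ifs with h1 h2
  · have h : 2 ≤ |v| := by rw [abs_of_neg (by omega)]; omega
    have h3 := inv_log_le v h
    have h4 := inv_log_nonneg v h
    constructor <;> linarith
  · constructor <;> linarith
  · constructor <;> linarith

lemma p2_bd (v : ℤ) : 0 ≤ p2 v ∧ p2 v ≤ 2 / Real.log 2 := by
  have hl := log2
  have h0 : 0 ≤ 1 / Real.log 2 := by positivity
  have h12 : 2 / Real.log 2 = 1 / Real.log 2 + 1 / Real.log 2 := by ring
  unfold p2
  split_ifs with h1 h2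
  · constructor <;> linarith
  · constructor <;> linarith
  · have h : 2 ≤ |v| := by rw [abs_of_pos (by omega)]; omega
    have h3 := inv_log_le v h
    have h4 := inv_log_nonneg v h
    constructor <;> linarith

lemma turn (a b c : ℤ) (ha : 1 ≤ a) : ∃ m0 : ℕ, 1 ≤ m0 ∧
    (∀ m : ℕ, m < m0 → 1 ≤ m → a * ((m + 1 : ℕ) : ℤ) ^ 2 + b * ((m + 1 : ℕ) : ℤ) + c ≤ a * (m : ℤ) ^ 2 + b * m + c) ∧
    (∀ m : ℕ, m0 ≤ m → a * (m : ℤ) ^ 2 + b * m + c ≤ a * ((m + 1 : ℕ) : ℤ) ^ 2 + b * ((m + 1 : ℕ) : ℤ) + c) := by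
  classical
  have hex : ∃ m : ℕ, 1 ≤ m ∧ 0 ≤ a * (2 * (m : ℤ) + 1) + b := by
    refine ⟨1 + b.natAbs, by omega, ?_⟩
    have h2 := neg_abs_le b
    push_cast
    nlinarith [abs_nonneg b]
  refine ⟨Nat.find hex, (Nat.find_spec hex).1, ?_, ?_⟩
  · intro m hm h1
    have h2 := Nat.find_min hex hm
    push Not at h2
    have h3 := h2 h1
    push_cast
    nlinarith
  · intro m hm
    have h2 := (Nat.find_spec hex).2
    have h3 : ((Nat.find hex : ℕ) : ℤ) ≤ m := by exact_mod_cast hm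
    push_cast
    nlinarith

theorem tv (a b c : ℤ) (ha : 1 ≤ a) (y : ℕ) :
    ∑ m ∈ Ico 1 y, |iv (a * ((m + 1 : ℕ) : ℤ) ^ 2 + b * ((m + 1 : ℕ) : ℤ) + c) - iv (a * (m : ℤ) ^ 2 + b * m + c)| ≤
      8 / Real.log 2 := by
  obtain ⟨m0, hm0, hd, hu⟩ := turn a b c ha
  -- a version of the sequence which starts at `1`
  set f : ℕ → ℤ := fun m => if m = 0 then a * (1 : ℤ) ^ 2 + b * 1 + c else a * (m : ℤ) ^ 2 + b * m + c with hf
  have hf1 : ∀ m, 1 ≤ m → f m = a * (m : ℤ) ^ 2 + b * m + c := by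
    intro m hm
    rw [hf]
    dsimp only
    rw [if_neg (by omega)]
  have hd' : ∀ m, m < m0 → f (m + 1) ≤ f m := by
    intro m hm
    rcases Nat.eq_zero_or_pos m with h | h
    · subst h
      rw [hf]
      simp
    · rw [hf1 m h, hf1 (m + 1) (by omega)]
      exact hd m hm h
  have hu' : ∀ m, m0 ≤ m → f m ≤ f (m + 1) := by
    intro m hm
    rw [hf1 m (by omega), hf1 (m + 1) (by omega)]
    exact hu m hm
  have h1 := tv_mono p1 p1_mono _ (fun t => (p1_bd t).1) (fun t => (p1_bd t).2) f m0 hm0 hd' hu' y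
  have h2 := tv_mono p2 p2_mono _ (fun t => (p2_bd t).1) (fun t => (p2_bd t).2) f m0 hm0 hd' hu' y
  have h3 : ∀ m ∈ Ico 1 y, |iv (a * ((m + 1 : ℕ) : ℤ) ^ 2 + b * ((m + 1 : ℕ) : ℤ) + c) - iv (a * (m : ℤ) ^ 2 + b * m + c)| ≤
      |p1 (f (m + 1)) - p1 (f m)| + |p2 (f (m + 1)) - p2 (f m)| := by
    intro m hm
    rw [mem_Ico] at hm
    rw [← hf1 m hm.1, ← hf1 (m + 1) (by omega), iv_eq, iv_eq]
    have := abs_sub (p1 (f (m + 1)) - p1 (f m)) (p2 (f (m + 1)) - p2 (f m))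
    refine le_trans (le_of_eq ?_) this
    congr 1
    ring
  refine (Finset.sum_le_sum h3).trans ?_
  rw [Finset.sum_add_distrib]
  have h4 : 8 / Real.log 2 = 2 * (2 / Real.log 2) + 2 * (2 / Real.log 2) := by ring
  linarith

end Pool.Agent.H79.Q.Sh
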