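import Pool.Agent.H79.Q.Cst
import Pool.Agent.H79.Q.Sh

/-!
From the sums with logarithmic weights to the number of the primes, for one polynomial.
-/

set_option autoImplicit false

namespace Pool.Agent.H79.Q.Core

open Finset Polynomial Filter Topology
open Pool.Agent.helper24_UT
open Pool.Agent.H373R2.T7 (pz mem_pz Vz Vz_pos Vz_inv_small ev_L')
open Pool.Agent.Results.MP_a1177c_nt.AllTriples (Admissible eps gcdProd partialC primeCount logSum eps_pos gcdProd_pos)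
open Pool.Agent.H79.Q.Fac (qF qF_eval qF_deg sg_eq Pr Qa split)
open Pool.Agent.H79.Q.Th (df tp)
open Pool.Agent.H79.Q.En (qv)
open Pool.Agent.H79.Q.Sh (iv iv_bd tv abel shift)

lemma tp_nonneg (v : ℤ) : 0 ≤ tp v := by
  unfold tp
  split_ifs
  · exact Real.log_natCast_nonneg _
  · exact le_rfl

lemma tp_iv (v : ℤ) : tp v * iv v = if v.natAbs.Prime then 1 else 0 := by
  unfold tp
  by_cases h : v.natAbs.Prime
  · rw [if_pos h, if_pos h]
    unfold iv
    have h2 : 2 ≤ |v| := by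
      have := h.two_le
      rw [Int.abs_eq_natAbs]
      exact_mod_cast this
    rw [if_pos h2]
    have h3 : |(v : ℝ)| = ((v.natAbs : ℕ) : ℝ) := by
      rw [Nat.cast_natAbs, Int.cast_abs]
    rw [h3]
    have h4 : (2 : ℝ) ≤ ((v.natAbs : ℕ) : ℝ) := by exact_mod_cast h.two_le
    have h5 := Real.log_pos (show (1 : ℝ) < ((v.natAbs : ℕ) : ℝ) by linarith)
    field_simp
  · rw [if_neg h, if_neg h, zero_mul]

lemma primeCount_eq (a b c : ℤ) (y : ℕ) :
    primeCount a b c y = ∑ m ∈ Icc 1 y, tp (a * (m : ℤ) ^ 2 + b * m + c) * iv (a * (m : ℤ) ^ 2 + b * m + c) := by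
  unfold primeCount
  rw [Finset.card_filter]
  push_cast
  refine Finset.sum_congr rfl fun m _ => ?_
  rw [tp_iv]

lemma logSum_eq (a b c : ℤ) (y : ℕ) : logSum a b c y = ∑ m ∈ Icc 1 y, iv (a * (m : ℤ) ^ 2 + b * m + c) := by
  unfold logSum iv
  rw [Finset.sum_filter]

lemma nine : 9 / Real.log 2 ≤ 13 := by
  have h := Real.log_two_gt_d9
  rw [div_le_iff₀ (by linarith)]
  linarith

theorem count (a b c : ℤ) (ha : 1 ≤ a) (y : ℕ) (Mc R : ℝ)
    (h : ∀ T ≤ y, |∑ m ∈ Icc 1 T, tp (a * (m : ℤ) ^ 2 + b * m + c) - T * Mc| ≤ 6 * R) :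
    |primeCount a b c y - Mc * logSum a b c y| ≤ 78 * R := by
  have h1 := abel (fun m : ℕ => tp (a * (m : ℤ) ^ 2 + b * m + c) - Mc) (fun m : ℕ => iv (a * (m : ℤ) ^ 2 + b * m + c)) y
    (6 * R) (1 / Real.log 2) (8 / Real.log 2) (by have := Sh.log2; positivity) (by
      intro T hT
      rw [Finset.sum_sub_distrib, Finset.sum_const, Nat.card_Icc, Nat.add_sub_cancel, nsmul_eq_mul]
      exact h T hT) (fun m => iv_bd _) (tv a b c ha y)
  have h2 : ∑ m ∈ Icc 1 y, (tp (a * (m : ℤ) ^ 2 + b * m + c) - Mc) * iv (a * (m : ℤ) ^ 2 + b * m + c) =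
      primeCount a b c y - Mc * logSum a b c y := by
    rw [primeCount_eq, logSum_eq, Finset.mul_sum, ← Finset.sum_sub_distrib]
    refine Finset.sum_congr rfl fun m _ => ?_
    ring
  have h3 := h 0 (by omega)
  have hR : 0 ≤ 6 * R := (abs_nonneg _).trans h3
  rw [h2] at h1
  refine h1.trans ?_
  have h4 : 6 * R * (1 / Real.log 2 + 8 / Real.log 2) = 6 * R * (9 / Real.log 2) := by ring
  rw [h4]
  have := mul_le_mul_of_nonneg_left nine hR
  linarith

/-- a lower bound for the count -/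
theorem lower (a b c : ℤ) (y : ℕ) (Mc R L : ℝ)
    (h : |∑ m ∈ Icc 1 y, tp (a * (m : ℤ) ^ 2 + b * m + c) - y * Mc| ≤ 6 * R)
    (hL : ∀ m ∈ Icc 1 y, tp (a * (m : ℤ) ^ 2 + b * m + c) ≤ 2 * L) :
    y * Mc - 6 * R ≤ 2 * L * primeCount a b c y := by
  have h1 : ∑ m ∈ Icc 1 y, tp (a * (m : ℤ) ^ 2 + b * m + c) ≤ 2 * L * primeCount a b c y := by
    unfold primeCount
    rw [Finset.card_filter]
    push_cast
    rw [Finset.mul_sum]
    refine Finset.sum_le_sum fun m hm => ?_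
    have h2 := hL m hm
    by_cases hp : (a * (m : ℤ) ^ 2 + b * m + c).natAbs.Prime
    · rw [if_pos hp]
      linarith
    · rw [if_neg hp]
      unfold tp
      rw [if_neg hp]
      simp
  have := (abs_le.1 h).1
  linarith

lemma sg_le {r : ℕ} (z : ℕ) (F : Fin r → ℤ[X]) (hr : r = 1) : sg z F ≤ (Vz z)⁻¹ := by
  subst hr
  unfold sg Vz
  rw [← Finset.prod_inv_distrib]
  apply Finset.prod_le_prod
  · intro p hp
    have hp2 : (2 : ℝ) ≤ p := by exact_mod_cast (mem_pz.1 hp).2.two_le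
    have h1 : ((om F p : ℕ) : ℝ) ≤ p := by
      have : om F p ≤ p := by
        unfold om
        refine (card_filter_le _ _).trans ?_
        rw [card_range]
      exact_mod_cast this
    have h2 : ((om F p : ℕ) : ℝ) / p ≤ 1 := by
      rw [div_le_one (by linarith)]
      exact h1
    have h3 : 1 / (p : ℝ) ≤ 1 := by
      rw [div_le_one (by linarith)]
      linarith
    apply div_nonneg (by linarith)
    rw [pow_one]
    linarith
  · intro p hp
    have hp2 : (2 : ℝ) ≤ p := by exact_mod_cast (mem_pz.1 hp).2.two_le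
    have h2 : 0 ≤ ((om F p : ℕ) : ℝ) / p := by positivity
    have h3 : 0 < 1 - 1 / (p : ℝ) := by
      have : 1 / (p : ℝ) ≤ 1 / 2 := one_div_le_one_div_of_le (by norm_num) hp2
      linarith
    rw [pow_one, div_eq_mul_inv]
    calc (1 - ((om F p : ℕ) : ℝ) / p) * (1 - 1 / (p : ℝ))⁻¹ ≤ 1 * (1 - 1 / (p : ℝ))⁻¹ :=
          mul_le_mul_of_nonneg_right (by linarith) (by positivity)
      _ = (1 - 1 / (p : ℝ))⁻¹ := one_mul _

lemma lz_bd (z : ℕ) (v : ℤ) : 0 ≤ lz z v ∧ lz z v ≤ (Vz z)⁻¹ := by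
  have h := inv_pos.2 (Vz_pos z)
  unfold lz
  split_ifs
  · exact ⟨h.le, le_rfl⟩
  · exact ⟨le_rfl, h.le⟩

lemma tp_le (v : ℤ) (N : ℕ) (hN : 2 ≤ N) (hv : |v| ≤ 2 * N) : tp v ≤ 2 * Real.log N := by
  have hNR : (2 : ℝ) ≤ N := by exact_mod_cast hN
  unfold tp
  split_ifs with h
  · have h1 : ((v.natAbs : ℕ) : ℝ) ≤ (N : ℝ) ^ 2 := by
      have h2 : v.natAbs ≤ 2 * N := by
        rw [Int.abs_eq_natAbs] at hv
        exact_mod_cast hv
      have h3 : ((v.natAbs : ℕ) : ℝ) ≤ 2 * N := by exact_mod_cast h2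
      nlinarith
    have h4 : (0 : ℝ) < ((v.natAbs : ℕ) : ℝ) := by exact_mod_cast h.pos
    calc Real.log ((v.natAbs : ℕ) : ℝ) ≤ Real.log ((N : ℝ) ^ 2) := Real.log_le_log h4 h1
      _ = 2 * Real.log N := by rw [Real.log_pow]; push_cast; ring
  · have := Real.log_nonneg (show (1 : ℝ) ≤ N by linarith)
    linarith

lemma df_bd (z : ℕ) (v : ℤ) (N : ℕ) (hN : 2 ≤ N) (hv : |v| ≤ 2 * N) (hV : (Vz z)⁻¹ ≤ Real.log N) :
    |df z v| ≤ 2 * Real.log N := by
  have h1 := tp_nonneg v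
  have h2 := tp_le v N hN hv
  have h3 := lz_bd z v
  have h4 : 0 ≤ Real.log N := Real.log_natCast_nonneg _
  unfold df
  rw [abs_le]
  constructor <;> linarith [h3.1, h3.2]

end Pool.Agent.H79.Q.Core
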