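import Pool.Graph.R_pool_sql_team_seeded_64922ed1.Results.MP_a1177c_nt.AllTriples
import Pool.Graph.R_pool_sql_team_seeded_620a6dc7.helper24_UT_.Stm21

/-!
The local factors of `a X² + b X + c` and the product over the primes which depends on the discriminant only.
-/

set_option autoImplicit false

namespace Pool.Agent.H79.Q.Fac

open Finset Polynomial Filter Topology
open Pool.Agent.helper24_UT
open Pool.Agent.H373R2.T7 (pz mem_pz)
open Pool.Agent.Results.MP_a1177c_nt.AllTriples (Admissible eps gcdProd partialC eps_pos gcdProd_pos SS_eq CF_eq rho_eq)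

/-- the polynomial -/
noncomputable def qF (a b c : ℤ) : Fin 1 → ℤ[X] := fun _ => C a * X ^ 2 + C b * X + C c

lemma qF_eval (a b c t : ℤ) (i : Fin 1) : (qF a b c i).eval t = a * t ^ 2 + b * t + c := by
  unfold qF
  simp

lemma qF_deg (a b c : ℤ) (i : Fin 1) : (qF a b c i).natDegree ≤ 2 := by
  unfold qF
  exact natDegree_quadratic_le

lemma om_eq (a b c : ℤ) (p : ℕ) : om (qF a b c) p = Pool.Agent.W468.ConjF.nr a b c p := by
  classical
  unfold om Pool.Agent.W468.ConjF.nr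
  congr 1
  ext t
  simp only [mem_filter, qF_eval]
  constructor
  · rintro ⟨h1, -, h2⟩
    exact ⟨h1, h2⟩
  · rintro ⟨h1, h2⟩
    exact ⟨h1, 0, h2⟩

theorem sg_eq (a b c : ℤ) (h : Admissible a b c) (z : ℕ) (hz : 2 ≤ z) (haz : a ≤ z) :
    sg z (qF a b c) = eps a b * gcdProd a b * partialC a b c z := by
  rw [← CF_eq a b c h.1 z haz, ← SS_eq a b c h hz]
  unfold sg Pool.Agent.H300R2.BH.SS
  have e : pz z = (Icc 1 z).filter Nat.Prime := rfl
  rw [e]
  refine prod_congr rfl fun p _ => ?_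
  rw [om_eq, rho_eq, pow_one]

/-- the product over the odd primes `p ≤ z` -/
noncomputable def Pr (D : ℤ) (z : ℕ) : ℝ := ∏ p ∈ (Icc 3 z).filter Nat.Prime, (1 - (jacobiSym D p : ℝ) / ((p : ℝ) - 1))

/-- the factors at the odd primes which divide `a` -/
noncomputable def Qa (a D : ℤ) : ℝ := ∏ p ∈ (Icc 3 a.toNat).filter (fun p : ℕ => p.Prime ∧ (p : ℤ) ∣ a),
  (1 - (jacobiSym D p : ℝ) / ((p : ℝ) - 1))

lemma jac_bd (D : ℤ) (p : ℕ) : |(jacobiSym D p : ℝ)| ≤ 1 := by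
  rcases jacobiSym.trichotomy D p with h | h | h <;> rw [h] <;> simp

lemma factor_bd (D : ℤ) (p : ℕ) (hp : 3 ≤ p) : 1 / 2 ≤ 1 - (jacobiSym D p : ℝ) / ((p : ℝ) - 1) ∧
    1 - (jacobiSym D p : ℝ) / ((p : ℝ) - 1) ≤ p := by
  have hpR : (3 : ℝ) ≤ p := by exact_mod_cast hp
  have h1 := abs_le.1 (jac_bd D p)
  have h2 : (0 : ℝ) < (p : ℝ) - 1 := by linarith
  constructor
  · have h3 : (jacobiSym D p : ℝ) / ((p : ℝ) - 1) ≤ 1 / 2 := by
      rw [div_le_div_iff₀ h2 (by norm_num)]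
      linarith [h1.2]
    linarith
  · have h3 : -1 ≤ (jacobiSym D p : ℝ) / ((p : ℝ) - 1) := by
      rw [le_div_iff₀ h2]
      linarith [h1.1]
    linarith

lemma Qa_pos (a D : ℤ) : 0 < Qa a D := by
  unfold Qa
  refine prod_pos fun p hp => ?_
  rw [mem_filter, mem_Icc] at hp
  have := (factor_bd D p hp.1.1).1
  linarith

lemma Qa_le (a D : ℤ) (ha : 1 ≤ a) : Qa a D ≤ a := by
  unfold Qa
  have h1 : ∏ p ∈ (Icc 3 a.toNat).filter (fun p : ℕ => p.Prime ∧ (p : ℤ) ∣ a), (1 - (jacobiSym D p : ℝ) / ((p : ℝ) - 1)) ≤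
      ∏ p ∈ (Icc 3 a.toNat).filter (fun p : ℕ => p.Prime ∧ (p : ℤ) ∣ a), (p : ℝ) := by
    apply Finset.prod_le_prod
    · intro p hp
      rw [mem_filter, mem_Icc] at hp
      have := (factor_bd D p hp.1.1).1
      linarith
    · intro p hp
      rw [mem_filter, mem_Icc] at hp
      exact (factor_bd D p hp.1.1).2
  refine h1.trans ?_
  have haZ : ((a.toNat : ℕ) : ℤ) = a := Int.toNat_of_nonneg (by omega)
  have h2 : ∏ p ∈ (Icc 3 a.toNat).filter (fun p : ℕ => p.Prime ∧ (p : ℤ) ∣ a), p ∣ a.toNat := by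
    apply Finset.prod_primes_dvd
    · intro p hp
      exact (mem_filter.1 hp).2.1.prime
    · intro p hp
      have h3 := (mem_filter.1 hp).2.2
      rw [← haZ] at h3
      exact_mod_cast h3
  have h3 := Nat.le_of_dvd (by omega) h2
  have h4 : ((∏ p ∈ (Icc 3 a.toNat).filter (fun p : ℕ => p.Prime ∧ (p : ℤ) ∣ a), p : ℕ) : ℝ) ≤ ((a.toNat : ℕ) : ℝ) := by
    exact_mod_cast h3
  have h5 : ((a.toNat : ℕ) : ℝ) = (a : ℝ) := by exact_mod_cast haZ
  rw [h5] at h4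
  push_cast at h4
  exact h4

lemma split (a b c : ℤ) (ha : 1 ≤ a) (z : ℕ) (haz : a ≤ z) :
    Pr (b ^ 2 - 4 * a * c) z = partialC a b c z * Qa a (b ^ 2 - 4 * a * c) := by
  unfold Pr partialC Qa
  have e : (Icc 3 a.toNat).filter (fun p : ℕ => p.Prime ∧ (p : ℤ) ∣ a) =
      (Icc 3 z).filter (fun p : ℕ => p.Prime ∧ (p : ℤ) ∣ a) := by
    ext p
    rw [mem_filter, mem_filter, mem_Icc, mem_Icc]
    constructor
    · rintro ⟨⟨h1, h2⟩, h3, h4⟩
      exact ⟨⟨h1, by omega⟩, h3, h4⟩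
    · rintro ⟨⟨h1, h2⟩, h3, h4⟩
      have := Int.le_of_dvd (by omega) h4
      exact ⟨⟨h1, by omega⟩, h3, h4⟩
  rw [e, ← prod_filter_mul_prod_filter_not ((Icc 3 z).filter Nat.Prime) (fun p : ℕ => (p : ℤ) ∣ a),
    filter_filter, filter_filter]
  exact mul_comm _ _

lemma limit (a b c : ℤ) (ha : 1 ≤ a) (z : ℕ) (haz : a ≤ z) (H δ : ℝ) (hH : 0 < H)
    (hlim : Tendsto (Pr (b ^ 2 - 4 * a * c)) atTop (𝓝 H)) (hz : |H - Pr (b ^ 2 - 4 * a * c) z| ≤ H * δ) :
    ∃ S : ℝ, 0 < S ∧ Tendsto (partialC a b c) atTop (𝓝 S) ∧ |S - partialC a b c z| ≤ S * δ ∧ H / a ≤ S := by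
  set D := b ^ 2 - 4 * a * c with hD
  have hQ := Qa_pos a D
  have hQ2 := Qa_le a D ha
  have haR : (1 : ℝ) ≤ a := by exact_mod_cast ha
  refine ⟨H / Qa a D, by positivity, ?_, ?_, ?_⟩
  · have h1 := hlim.div_const (Qa a D)
    refine h1.congr' ?_
    filter_upwards [eventually_ge_atTop a.toNat] with w hw
    rw [hD, split a b c ha w (by omega), ← hD]
    field_simp
  · have h1 : partialC a b c z = Pr D z / Qa a D := by
      rw [hD, split a b c ha z haz, ← hD]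
      field_simp
    rw [h1, ← sub_div, abs_div, abs_of_pos hQ]
    calc |H - Pr D z| / Qa a D ≤ H * δ / Qa a D := div_le_div_of_nonneg_right hz hQ.le
      _ = H / Qa a D * δ := by ring
  · exact div_le_div_of_nonneg_left hH.le hQ hQ2

end Pool.Agent.H79.Q.Fac
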