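import Pool.Agent.H79.Q.Th
import Pool.Agent.H79.Q.Fac
import Pool.Graph.R_pool_sql_team_seeded_620a6dc7.helper24_UT_.R23
import Pool.Graph.R_pool_sql_team_seeded_620a6dc7.helper24_UT_.Mtl

/-!
For almost all `D` the product over the primes `p ≤ z` is close to its limit.
-/

set_option autoImplicit false

namespace Pool.Agent.H79.Q.Cst

open Finset Polynomial Filter Topology
open Pool.Agent.helper24_UT
open Pool.Agent.H373R2.T7 (pz mem_pz Vz Vz_pos Vz_inv_small ev_L')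
open Pool.Agent.Results.MP_a1177c_nt.AllTriples (Admissible eps gcdProd partialC)
open Pool.Agent.H79.Q.Fac (qF qF_eval qF_deg sg_eq Pr Qa split)
open Pool.Agent.H79.Q.Th (df tp)
open Pool.Agent.H79.Q.En (qv)

lemma isSquare_four (D : ℤ) (h : IsSquare (4 * D)) : IsSquare D := by
  obtain ⟨r, hr⟩ := h
  have h2 : (2 : ℤ) ∣ r := by
    have h3 : (2 : ℤ) ∣ r * r := ⟨2 * D, by linarith⟩
    rcases Int.prime_two.dvd_or_dvd h3 with h | h <;> exact h
  obtain ⟨s, rfl⟩ := h2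
  exact ⟨s, by linarith⟩

lemma adm (c : ℤ) (hc : ¬ IsSquare (-c)) : Admissible 1 0 c := by
  refine ⟨by norm_num, ?_, ?_, ?_⟩
  · intro d h1 _ _
    exact isUnit_of_dvd_one h1
  · rintro ⟨h, _⟩
    omega
  · intro h
    apply hc
    apply isSquare_four
    have e : (0 : ℤ) ^ 2 - 4 * 1 * c = 4 * (-c) := by ring
    rwa [e] at h

lemma sg_one (c : ℤ) (hc : ¬ IsSquare (-c)) (z : ℕ) (hz : 2 ≤ z) : sg z (qF 1 0 c) = Pr (-c) z := by
  rw [sg_eq 1 0 c (adm c hc) z hz (by omega)]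
  have h1 : eps 1 0 = 1 := by
    unfold eps
    rw [if_neg (by omega)]
  have h2 : gcdProd 1 0 = 1 := by
    unfold gcdProd
    simp
  have h3 := split 1 0 c (le_refl 1) z (by omega)
  have h4 : Qa 1 (0 ^ 2 - 4 * 1 * c) = 1 := by
    unfold Qa
    have : Icc 3 ((1 : ℤ).toNat) = ∅ := by decide
    rw [this]
    simp
  rw [h4] at h3
  have h3' : partialC 1 0 c z = Pr (0 ^ 2 - 4 * 1 * c) z := by linarith
  rw [h1, h2, one_mul, one_mul, h3']
  unfold Pr
  refine Finset.prod_congr rfl fun p hp => ?_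
  rw [mem_filter, mem_Icc] at hp
  have e : (0 : ℤ) ^ 2 - 4 * 1 * c = (2 * 2) * (-c) := by ring
  have hodd : Nat.Coprime 2 p := by
    rw [Nat.coprime_primes Nat.prime_two hp.2]
    omega
  have h5 : jacobiSym (2 * 2) p = 1 := by
    rw [jacobiSym.mul_left]
    have : NeZero p := ⟨by omega⟩
    have h6 : jacobiSym 2 p ≠ 0 := by
      rw [Ne, jacobiSym.eq_zero_iff_not_coprime, not_not]
      exact_mod_cast hodd
    rcases jacobiSym.trichotomy 2 p with h | h | h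
    · exact absurd h h6
    · rw [h]; norm_num
    · rw [h]; norm_num
  rw [e, jacobiSym.mul_left, h5, one_mul]

/-- the conclusion for `D` -/
def GC (K N z : ℕ) (D : ℤ) : Prop := ∃ H : ℝ, 0 < H ∧ Tendsto (Pr D) atTop (𝓝 H) ∧
  |H - Pr D z| ≤ H * (1 / (Real.log N) ^ K) ∧ 1 / (2 * (Real.log N) ^ 2) ≤ H

lemma qF_qp (c : ℤ) : qF 1 0 c = qp c := by
  funext i
  unfold qF qp
  simp

open Classical in
theorem cst (hLE : S_LE (1 / 3)) (A K : ℕ) : ∃ E₀ : ℕ, ∀ E₁ : ℕ, ∃ N₀ : ℕ, ∀ N : ℕ, N₀ ≤ N →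
    ∀ z : ℕ, (Real.log N) ^ E₀ ≤ z → (z : ℝ) ≤ (Real.log N) ^ E₁ →
    (((Icc (-(N : ℤ)) N).filter (fun D => ¬ IsSquare D ∧ ¬ GC K N z D)).card : ℝ) ≤ N / (Real.log N) ^ A := by
  obtain ⟨A', hA'⟩ : ∃ A' : ℕ, A' = A + K + 10 := ⟨_, rfl⟩
  obtain ⟨E₀, hE₀⟩ := Th.bad2 hLE 10 A' 0 (by norm_num)
  refine ⟨E₀ + 1, fun E₁ => ?_⟩
  obtain ⟨N₁, hN₁⟩ := hE₀ E₁
  obtain ⟨N₂, hN₂⟩ := Pool.Agent.Results.MP_391708_nt.FullConstantInClasses.result (1 / 4) (by norm_num) A' A' 0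
  obtain ⟨N₃, hN₃⟩ := Vz_inv_small E₁
  obtain ⟨N₄, hN₄⟩ := ev_L' 100
  obtain ⟨N₅, hN₅⟩ := Mtl.main 1 2 E₁ A'
  -- the size of the square root
  obtain ⟨N₆, hN₆⟩ : ∃ N₆ : ℕ, ∀ N : ℕ, N₆ ≤ N → 8 * (N : ℝ) ^ (4 / 15 : ℝ) ≤ (N : ℝ) ^ (1 / 2 : ℝ) := by
    have hl : Filter.Tendsto (fun N : ℕ => (N : ℝ) ^ (7 / 30 : ℝ)) Filter.atTop Filter.atTop :=
      (tendsto_rpow_atTop (by norm_num)).comp (tendsto_natCast_atTop_atTop (R := ℝ))
    obtain ⟨N0, hN0⟩ := Filter.eventually_atTop.1 (hl.eventually_ge_atTop 8)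
    refine ⟨N0 + 1, fun X hX => ?_⟩
    have h := hN0 X (by omega)
    have hX1 : (1 : ℝ) ≤ X := by exact_mod_cast (by omega : 1 ≤ X)
    have hm : (X : ℝ) ^ (1 / 2 : ℝ) = (X : ℝ) ^ (7 / 30 : ℝ) * (X : ℝ) ^ (4 / 15 : ℝ) := by
      rw [← Real.rpow_add (by linarith)]; norm_num
    rw [hm]
    exact mul_le_mul_of_nonneg_right h (by positivity)
  refine ⟨N₁ + N₂ + N₃ + N₄ + N₅ + N₆ + 4, ?_⟩
  intro N hN z hz1 hz2
  have hNpos : (1 : ℝ) ≤ N := by exact_mod_cast (by omega : 1 ≤ N)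
  have hb1 := hN₁ N (by omega)
  have hb2 := hN₂ N (by omega) 1 le_rfl (by
    rw [Nat.cast_one]
    exact Real.one_le_rpow hNpos (by norm_num)) (by simp) 0 (by simp)
  rw [Nat.cast_one, one_mul] at hb2
  have hV := hN₃ N (by omega) z
  have hL := hN₄ N (by omega)
  have hm := hN₅ N (by omega) z
  have hsz := hN₆ N (by omega)
  obtain ⟨L, hLd⟩ : ∃ L : ℝ, L = Real.log N := ⟨_, rfl⟩
  rw [← hLd] at hb1 hb2 hV hL hm hz1 hz2 ⊢
  have hL0 : 0 < L := by linarith
  have hL1 : 1 ≤ L := by linarith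
  have hz0 : L ^ E₀ ≤ z := (pow_le_pow_right₀ hL1 (by omega)).trans hz1
  have hz2' : (2 : ℕ) ≤ z := by
    have : (2 : ℝ) ≤ z := by
      calc (2 : ℝ) ≤ L := by linarith
        _ = L ^ 1 := (pow_one _).symm
        _ ≤ L ^ (E₀ + 1) := pow_le_pow_right₀ hL1 (by omega)
        _ ≤ z := hz1
    exact_mod_cast this
  have hb1' := hb1 z hz0 hz2 1 0 le_rfl (by simp) (by simp)
  have hV' := hV (by omega) hz2
  have hm' := hm (by omega) hz2
  set B1 := (Icc (-(N : ℤ)) N).filter (fun c => ∃ y : ℕ, Key.Rg 10 N 1 y ∧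
      (y : ℝ) / L ^ A' < |∑ n ∈ Icc 1 y, df z (qv 1 0 n + c)|) with hB1
  set B2 := (Icc (-(N : ℤ)) N).filter (fun c : ℤ => c ≡ 0 [ZMOD ((1 : ℕ) : ℤ)] ∧
        ¬ Pool.Agent.Results.MP_391708_nt.FullConstantInClasses.Good A' N c) with hB2
  have hb2' : (B2.card : ℝ) ≤ N / L ^ A' := by
    refine le_trans (le_of_eq ?_) hb2
    unfold Pool.Agent.Results.MP_391708_nt.FullConstantInClasses.exceptions
    rw [hB2]
  have hsub : (Icc (-(N : ℤ)) N).filter (fun D => ¬ IsSquare D ∧ ¬ GC K N z D) ⊆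
      (B1 ∪ B2).image (fun c => -c) := by
    intro D hD
    rw [mem_filter, mem_Icc] at hD
    obtain ⟨⟨hD1, hD2⟩, hDs, hDG⟩ := hD
    by_contra hcon
    apply hDG
    have hcmem : (-D) ∈ Icc (-(N : ℤ)) (N : ℤ) := by
      rw [mem_Icc]
      constructor <;> omega
    have hno : (-D) ∉ B1 ∪ B2 := by
      intro h
      apply hcon
      rw [mem_image]
      exact ⟨-D, h, by ring⟩
    rw [mem_union, not_or, hB1, hB2, mem_filter, mem_filter] at hno
    obtain ⟨hn1, hn2⟩ := hno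
    have hG : Pool.Agent.Results.MP_391708_nt.FullConstantInClasses.Good A' N (-D) := by
      by_contra h
      apply hn2
      refine ⟨hcmem, ?_, h⟩
      rw [Nat.cast_one]
      exact Int.modEq_one
    obtain ⟨-, H, hH1, hH2⟩ := hG
    -- the length
    obtain ⟨y, hy⟩ : ∃ y : ℕ, y = Nat.sqrt (N / 7) := ⟨_, rfl⟩
    have hy1 : 7 * y ^ 2 ≤ N := by
      have h1 : y ^ 2 ≤ N / 7 := by rw [hy]; exact Nat.sqrt_le' _
      omega
    have hy2 : N < 7 * (y + 1) ^ 2 := by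
      have h1 : N / 7 < (y + 1) ^ 2 := by rw [hy]; exact Nat.lt_succ_sqrt' _
      omega
    have hsq : (N : ℝ) ^ (1 / 2 : ℝ) = Real.sqrt N := (Real.sqrt_eq_rpow _).symm
    have hNy : Real.sqrt N ≤ 3 * (y + 1) := by
      apply Real.sqrt_le_iff.mpr
      refine ⟨by positivity, ?_⟩
      have h1 : (N : ℝ) < 7 * ((y : ℝ) + 1) ^ 2 := by exact_mod_cast hy2
      nlinarith
    have hbig : (8 : ℝ) ≤ 8 * (N : ℝ) ^ (4 / 15 : ℝ) := by
      have := Real.one_le_rpow hNpos (show (0 : ℝ) ≤ 4 / 15 by norm_num)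
      linarith
    rw [hsq] at hsz
    have hyR : (1 : ℝ) ≤ y := by linarith
    have hNy4 : Real.sqrt N ≤ 6 * y := by linarith
    have hRg : Key.Rg 10 N 1 y := by
      constructor
      · have h1 : ((1 : ℝ) / 6 + 1 / ((10 : ℕ) : ℝ)) = 4 / 15 := by norm_num
        rw [h1]
        linarith
      · have : (7 * (y : ℤ) ^ 2) ≤ N := by exact_mod_cast hy1
        linarith
    have k1 : |∑ n ∈ Icc 1 y, df z (qv 1 0 n + (-D))| ≤ y / L ^ A' := by
      by_contra hh
      push Not at hh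
      exact hn1 ⟨hcmem, y, hRg, hh⟩
    have k2 := hm' (qF 1 0 (-D)) (qF_deg 1 0 (-D)) y (by
      have h1 : (N : ℝ) ^ (4 / 15 : ℝ) ≤ y := by linarith
      refine le_trans ?_ h1
      rw [Real.rpow_def_of_pos (by linarith), ← hLd]
      apply Real.exp_le_exp.2
      have h2 : √L ≤ L / 10 := by
        rw [Real.sqrt_le_left (by positivity)]
        nlinarith
      linarith)
    have k3 := hH2 y (by nlinarith)
    rw [← hLd] at k3
    have e1 : ∑ n ∈ Icc 1 y, df z (qv 1 0 n + (-D)) =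
        Pool.Agent.Results.MP_391708_nt.FullConstantInClasses.theta (-D) y -
          ∑ n ∈ Icc 1 y, ∏ i, lz z ((qF 1 0 (-D) i).eval (n : ℤ)) := by
      unfold Pool.Agent.Results.MP_391708_nt.FullConstantInClasses.theta
      rw [← sum_sub_distrib]
      refine Finset.sum_congr rfl fun n _ => ?_
      rw [Fin.prod_univ_one, qF_eval]
      unfold df tp qv
      simp only [one_mul, zero_mul, add_zero]
    rw [e1] at k1
    obtain ⟨S, hS⟩ : ∃ S : ℝ, S = sg z (qF 1 0 (-D)) := ⟨_, rfl⟩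
    obtain ⟨θ, hθ⟩ : ∃ θ : ℝ, θ = Pool.Agent.Results.MP_391708_nt.FullConstantInClasses.theta (-D) y := ⟨_, rfl⟩
    obtain ⟨M, hM⟩ : ∃ M : ℝ, M = ∑ n ∈ Icc 1 y, ∏ i, lz z ((qF 1 0 (-D) i).eval (n : ℤ)) := ⟨_, rfl⟩
    rw [← hS, ← hM] at k2
    rw [← hθ] at k3 k1
    rw [← hM] at k1
    have hLA : 0 < L ^ A' := by positivity
    have hHS : |H - S| ≤ 8 / L ^ A' := by
      have h6 : |H - S| * (y : ℝ) ≤ 8 / L ^ A' * (y : ℝ) := by
        have e2 : |H - S| * (y : ℝ) = |(H - S) * (y : ℝ)| := by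
          rw [abs_mul, abs_of_nonneg (by linarith : (0:ℝ) ≤ (y : ℝ))]
        have e3 : (H - S) * (y : ℝ) = (θ - M) + (M - y * S) - (θ - H * y) := by ring
        rw [e2, e3]
        have h7 := abs_sub ((θ - M) + (M - y * S)) (θ - H * y)
        have h8 := abs_add_le (θ - M) (M - y * S)
        have h9 : Real.sqrt N / L ^ A' ≤ 6 * y / L ^ A' := div_le_div_of_nonneg_right hNy4 hLA.le
        calc _ ≤ y / L ^ A' + y / L ^ A' + 6 * y / L ^ A' := by linarith
          _ = 8 / L ^ A' * (y : ℝ) := by ring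
      exact le_of_mul_le_mul_right h6 (by linarith)
    have hVpos := Vz_pos z
    have hVL : 1 / L ≤ Vz z := by
      rw [div_le_iff₀ (by linarith)]
      have := mul_le_mul_of_nonneg_left hV' hVpos.le
      rwa [mul_inv_cancel₀ hVpos.ne'] at this
    have hS2 : 1 / L ^ 2 ≤ S := by
      calc 1 / L ^ 2 = (1 / L) ^ 2 := by rw [div_pow, one_pow]
        _ ≤ Vz z ^ 2 := pow_le_pow_left₀ (by positivity) hVL 2
        _ ≤ S := by rw [hS, qF_qp]; exact R23.sg_ge (-D) z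
    have hL2 : 0 < L ^ 2 := by positivity
    have hpw : 16 * L ^ (K + 2) ≤ L ^ A' := by
      have e1 : L ^ A' = L ^ (K + 2) * L ^ (A + 8) := by rw [← pow_add, hA']; congr 1; ring
      have e2 : 16 ≤ L ^ (A + 8) := by
        calc (16 : ℝ) ≤ L := by linarith
          _ = L ^ 1 := (pow_one L).symm
          _ ≤ L ^ (A + 8) := pow_le_pow_right₀ (by linarith) (by omega)
      rw [e1, mul_comm]
      exact mul_le_mul_of_nonneg_left e2 (by positivity)
    have hsm : 16 / L ^ A' ≤ 1 / L ^ (K + 2) := by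
      rw [div_le_div_iff₀ hLA (by positivity)]
      linarith
    have hsm2 : 1 / L ^ (K + 2) ≤ 1 / L ^ 2 := by
      apply one_div_le_one_div_of_le hL2
      exact pow_le_pow_right₀ (by linarith) (by omega)
    have hHge : 1 / (2 * L ^ 2) ≤ H := by
      have h7 := (abs_le.mp hHS).1
      have e1 : 1 / (2 * L ^ 2) = 1 / L ^ 2 / 2 := by rw [div_div, mul_comm]
      have e2 : 8 / L ^ A' = 1 / 2 * (16 / L ^ A') := by ring
      rw [e1]
      rw [e2] at h7
      linarith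
    have hH0 : 0 < H := lt_of_lt_of_le (by positivity) hHge
    refine ⟨H, hH0, ?_, ?_, by rw [← hLd]; exact hHge⟩
    · have e4 : Pr D = Pool.Agent.Results.MP_391708_nt.FullConstantInClasses.product (-D) := by
        funext w
        unfold Pr Pool.Agent.Results.MP_391708_nt.FullConstantInClasses.product
        rw [neg_neg]
      rw [e4]
      exact hH1
    · have e5 : Pr D z = S := by
        rw [hS, sg_one (-D) (by rwa [neg_neg]) z hz2', neg_neg]
      rw [e5, ← hLd]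
      calc |H - S| ≤ 8 / L ^ A' := hHS
        _ = 1 / 2 * (16 / L ^ A') := by ring
        _ ≤ 1 / 2 * (1 / L ^ (K + 2)) := by linarith
        _ = 1 / (2 * L ^ 2) * (1 / L ^ K) := by
            rw [pow_add]
            field_simp
        _ ≤ H * (1 / L ^ K) := mul_le_mul_of_nonneg_right hHge (by positivity)
  have hc1 : (((Icc (-(N : ℤ)) N).filter (fun D => ¬ IsSquare D ∧ ¬ GC K N z D)).card : ℝ) ≤ B1.card + B2.card := by
    have h1 := (card_le_card hsub).trans Finset.card_image_le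
    exact_mod_cast h1.trans (card_union_le B1 B2)
  calc (((Icc (-(N : ℤ)) N).filter (fun D => ¬ IsSquare D ∧ ¬ GC K N z D)).card : ℝ) ≤ B1.card + B2.card := hc1
    _ ≤ N / L ^ A' + N / L ^ A' := add_le_add hb1' hb2'
    _ = N * (2 / L ^ A') := by ring
    _ ≤ N * (1 / L ^ A) := by
        apply mul_le_mul_of_nonneg_left _ (by linarith)
        rw [div_le_div_iff₀ (by positivity) (by positivity)]
        have e1 : L ^ A' = L ^ A * L ^ (K + 10) := by rw [← pow_add, hA']; congr 1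
        have e2 : 2 ≤ L ^ (K + 10) := by
          calc (2 : ℝ) ≤ L := by linarith
            _ = L ^ 1 := (pow_one L).symm
            _ ≤ L ^ (K + 10) := pow_le_pow_right₀ (by linarith) (by omega)
        rw [e1]
        have : 0 < L ^ A := by positivity
        nlinarith
    _ = N / L ^ A := by ring

end Pool.Agent.H79.Q.Cst
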