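import Mathlib
import Pool.Graph.R_seed8.H373R2.T7.EnergyDef

/-!
The additive energy of the values `a m² + b m`, `m ≤ x`, with explicit dependence on `a`.
-/

set_option autoImplicit false

namespace Pool.Agent.H79.Q.En

open Finset
open Pool.Agent.H373R2.T7 (energy)

/-- the number of divisors, as a real number -/
noncomputable def tau (n : ℕ) : ℝ := (n.divisors.card : ℝ)

lemma tau_nonneg (n : ℕ) : 0 ≤ tau n := Nat.cast_nonneg _

lemma tau_mul (m n : ℕ) : tau (m * n) ≤ tau m * tau n := by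
  unfold tau
  rw [Nat.divisors_mul]
  exact_mod_cast Finset.card_mul_le

lemma sum_tau (x : ℕ) : ∑ n ∈ Icc 1 x, tau n ≤ x * (1 + Real.log x) := by
  have h1 : ∀ n ∈ Icc 1 x, tau n = ∑ d ∈ Icc 1 x, if d ∣ n then (1 : ℝ) else 0 := by
    intro n hn
    rw [mem_Icc] at hn
    unfold tau
    rw [← Finset.sum_filter, Finset.sum_const, nsmul_eq_mul, mul_one]
    congr 2
    ext d
    rw [Nat.mem_divisors, mem_filter, mem_Icc]
    constructor
    · rintro ⟨h2, h3⟩
      exact ⟨⟨Nat.pos_of_dvd_of_pos h2 (by omega), (Nat.le_of_dvd (by omega) h2).trans hn.2⟩, h2⟩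
    · rintro ⟨_, h2⟩
      exact ⟨h2, by omega⟩
  rw [Finset.sum_congr rfl h1, Finset.sum_comm]
  have h2 : ∀ d ∈ Icc 1 x, (∑ n ∈ Icc 1 x, if d ∣ n then (1 : ℝ) else 0) ≤ x * ((d : ℝ))⁻¹ := by
    intro d hd
    rw [mem_Icc] at hd
    rw [← Finset.sum_filter, Finset.sum_const, nsmul_eq_mul, mul_one]
    have h3 : ((Icc 1 x).filter (fun n => d ∣ n)).card = x / d := by
      rw [← Nat.Ioc_filter_dvd_card_eq_div x d]
      congr 1
    rw [h3]
    refine Nat.cast_div_le.trans ?_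
    rw [div_eq_mul_inv]
  refine (Finset.sum_le_sum h2).trans ?_
  rw [← Finset.mul_sum]
  apply mul_le_mul_of_nonneg_left _ (Nat.cast_nonneg _)
  have h4 := harmonic_le_one_add_log x
  rw [harmonic_eq_sum_Icc] at h4
  push_cast at h4
  exact h4

lemma sum_tau_int (x : ℕ) : ∑ v ∈ Icc (-(x : ℤ)) x, tau v.natAbs ≤ 2 * (x * (1 + Real.log x)) := by
  have h1 : Icc (-(x : ℤ)) x ⊆ ({0} ∪ (Icc 1 x).image (fun n : ℕ => (n : ℤ))) ∪ (Icc 1 x).image (fun n : ℕ => -(n : ℤ)) := by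
    intro v hv
    rw [mem_Icc] at hv
    rw [mem_union, mem_union, mem_image, mem_image, mem_singleton]
    rcases lt_trichotomy v 0 with h | h | h
    · right
      exact ⟨v.natAbs, by rw [mem_Icc]; omega, by omega⟩
    · left; left; exact h
    · left; right
      exact ⟨v.natAbs, by rw [mem_Icc]; omega, by omega⟩
  have h2 := Finset.sum_le_sum_of_subset_of_nonneg h1 (f := fun v : ℤ => tau v.natAbs) (fun v _ _ => tau_nonneg _)
  refine h2.trans ?_
  have hun : ∀ (S T : Finset ℤ), ∑ v ∈ S ∪ T, tau v.natAbs ≤ ∑ v ∈ S, tau v.natAbs + ∑ v ∈ T, tau v.natAbs := by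
    intro S T
    have := Finset.sum_union_inter (s₁ := S) (s₂ := T) (f := fun v : ℤ => tau v.natAbs)
    have h3 : 0 ≤ ∑ v ∈ S ∩ T, tau v.natAbs := Finset.sum_nonneg fun _ _ => tau_nonneg _
    linarith
  have h3 : ∑ v ∈ (Icc 1 x).image (fun n : ℕ => (n : ℤ)), tau v.natAbs = ∑ n ∈ Icc 1 x, tau n := by
    rw [Finset.sum_image (by intro a _ b _ h; simpa using h)]
    simp
  have h4 : ∑ v ∈ (Icc 1 x).image (fun n : ℕ => -(n : ℤ)), tau v.natAbs = ∑ n ∈ Icc 1 x, tau n := by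
    rw [Finset.sum_image (by intro a _ b _ h; simpa using h)]
    simp
  have h5 : ∑ v ∈ ({0} : Finset ℤ), tau v.natAbs = 0 := by
    simp [tau]
  have h6 := hun ({0} ∪ (Icc 1 x).image (fun n : ℕ => (n : ℤ))) ((Icc 1 x).image (fun n : ℕ => -(n : ℤ)))
  have h7 := hun ({0}) ((Icc 1 x).image (fun n : ℕ => (n : ℤ)))
  have h8 := sum_tau x
  linarith

/-- the family of the values -/
def qv (a b : ℤ) (m : ℕ) : ℤ := a * (m : ℤ) ^ 2 + b * m

lemma fiber (a b v : ℤ) (x : ℕ) (ha : 1 ≤ a) (hv : v ≠ 0) :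
    (((Icc 1 x ×ˢ Icc 1 x).filter (fun q : ℕ × ℕ => ((q.1 : ℤ) - q.2) * (a * ((q.1 : ℤ) + q.2) + b) = v)).card : ℝ) ≤
      2 * tau v.natAbs := by
  classical
  set T : Finset ℤ := (v.natAbs.divisors).image (fun d : ℕ => (d : ℤ)) ∪ (v.natAbs.divisors).image (fun d : ℕ => -(d : ℤ)) with hT
  have hTc : T.card ≤ 2 * v.natAbs.divisors.card := by
    rw [hT]
    refine (card_union_le _ _).trans ?_
    have h1 := Finset.card_image_le (s := v.natAbs.divisors) (f := fun d : ℕ => (d : ℤ))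
    have h2 := Finset.card_image_le (s := v.natAbs.divisors) (f := fun d : ℕ => -(d : ℤ))
    omega
  have h1 : ((Icc 1 x ×ˢ Icc 1 x).filter (fun q : ℕ × ℕ => ((q.1 : ℤ) - q.2) * (a * ((q.1 : ℤ) + q.2) + b) = v)).card ≤ T.card := by
    apply Finset.card_le_card_of_injOn (fun q : ℕ × ℕ => (q.1 : ℤ) - q.2)
    · intro q hq
      rw [Finset.mem_coe, mem_filter] at hq
      have hd : (q.1 : ℤ) - q.2 ∣ v := ⟨_, hq.2.symm⟩
      have hd0 : ((q.1 : ℤ) - q.2).natAbs ∣ v.natAbs := Int.natAbs_dvd_natAbs.2 hd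
      have hmem : ((q.1 : ℤ) - q.2).natAbs ∈ v.natAbs.divisors := by
        rw [Nat.mem_divisors]
        exact ⟨hd0, by omega⟩
      rw [Finset.mem_coe, hT, mem_union, mem_image, mem_image]
      rcases Int.natAbs_eq ((q.1 : ℤ) - q.2) with h | h
      · left; exact ⟨_, hmem, h.symm⟩
      · right; exact ⟨_, hmem, h.symm⟩
    · intro q hq q' hq' he
      rw [Finset.mem_coe, mem_filter] at hq hq'
      dsimp only at he
      have h3 := hq.2
      have h4 := hq'.2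
      rw [← he] at h4
      have h5 : ((q.1 : ℤ) - q.2) ≠ 0 := by
        intro h6
        rw [h6, zero_mul] at h3
        exact hv h3.symm
      have h6 : a * ((q.1 : ℤ) + q.2) + b = a * ((q'.1 : ℤ) + q'.2) + b := by
        apply mul_left_cancel₀ h5
        rw [h3, h4]
      have h7 : ((q.1 : ℤ) + q.2) = ((q'.1 : ℤ) + q'.2) := by
        apply mul_left_cancel₀ (by omega : a ≠ 0)
        linarith
      apply Prod.ext <;> omega
  unfold tau
  have h2 := h1.trans hTc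
  exact_mod_cast h2

/-- solutions with both sides nonzero, and the diagonal ones -/
lemma quad (a b : ℤ) (x : ℕ) (ha : 1 ≤ a) (hb : |b| ≤ 2 * a) :
    ((((Icc 1 x ×ˢ Icc 1 x) ×ˢ (Icc 1 x ×ˢ Icc 1 x)).filter (fun q : (ℕ × ℕ) × (ℕ × ℕ) =>
      ((q.2.1 : ℤ) - q.2.2) * (a * ((q.2.1 : ℤ) + q.2.2) + b) =
        ((q.1.1 : ℤ) - q.1.2) * (a * ((q.1.1 : ℤ) + q.1.2) + b))).card : ℝ) ≤
      33 * a * x ^ 2 * (1 + Real.log (4 * a * x)) ^ 2 := by
  classical
  rcases Nat.eq_zero_or_pos x with hx | hx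
  · subst hx
    simp
  have hxR : (1 : ℝ) ≤ x := by exact_mod_cast hx
  have haR : (1 : ℝ) ≤ a := by exact_mod_cast ha
  set w : ℕ × ℕ → ℤ := fun q => ((q.1 : ℤ) - q.2) * (a * ((q.1 : ℤ) + q.2) + b) with hw
  have hzero : ∀ q ∈ Icc 1 x ×ˢ Icc 1 x, w q = 0 → q.1 = q.2 := by
    intro q hq h0
    rw [mem_product, mem_Icc, mem_Icc] at hq
    rw [hw] at h0
    dsimp only at h0
    rcases mul_eq_zero.1 h0 with h | h
    · omega
    · have h1 := abs_le.1 hb
      by_contra hne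
      have h2 : (3 : ℤ) ≤ (q.1 : ℤ) + q.2 := by
        have := hq.1.1
        have := hq.2.1
        omega
      nlinarith
  -- the count as a sum
  have h1 : ((((Icc 1 x ×ˢ Icc 1 x) ×ˢ (Icc 1 x ×ˢ Icc 1 x)).filter (fun q : (ℕ × ℕ) × (ℕ × ℕ) =>
      w q.2 = w q.1)).card : ℝ) =
      ∑ q ∈ Icc 1 x ×ˢ Icc 1 x, (((Icc 1 x ×ˢ Icc 1 x).filter (fun r : ℕ × ℕ => w r = w q)).card : ℝ) := by
    rw [Finset.card_filter]
    push_cast
    rw [Finset.sum_product]
    refine Finset.sum_congr rfl fun q _ => ?_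
    rw [Finset.card_filter]
    push_cast
    rfl
  have h2 : ∀ q ∈ Icc 1 x ×ˢ Icc 1 x, (((Icc 1 x ×ˢ Icc 1 x).filter (fun r : ℕ × ℕ => w r = w q)).card : ℝ) ≤
      (if q.1 = q.2 then (x : ℝ) else 0) + 2 * (tau ((q.1 : ℤ) - q.2).natAbs * tau (a * ((q.1 : ℤ) + q.2) + b).natAbs) := by
    intro q hq
    by_cases h0 : w q = 0
    · have h3 := hzero q hq h0
      rw [if_pos h3, h0]
      have h4 : ((Icc 1 x ×ˢ Icc 1 x).filter (fun r : ℕ × ℕ => w r = 0)).card ≤ (Icc 1 x).card := by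
        apply Finset.card_le_card_of_injOn (fun r : ℕ × ℕ => r.1)
        · intro r hr
          rw [Finset.mem_coe, mem_filter, mem_product] at hr
          exact hr.1.1
        · intro r hr r' hr' he
          rw [Finset.mem_coe, mem_filter] at hr hr'
          have h5 := hzero r hr.1 hr.2
          have h6 := hzero r' hr'.1 hr'.2
          dsimp only at he
          apply Prod.ext <;> omega
      rw [Nat.card_Icc, Nat.add_sub_cancel] at h4
      have h5 : (((Icc 1 x ×ˢ Icc 1 x).filter (fun r : ℕ × ℕ => w r = 0)).card : ℝ) ≤ x := by exact_mod_cast h4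
      have h6 : 0 ≤ tau ((q.1 : ℤ) - q.2).natAbs * tau (a * ((q.1 : ℤ) + q.2) + b).natAbs :=
        mul_nonneg (tau_nonneg _) (tau_nonneg _)
      linarith
    · have h3 := fiber a b (w q) x ha h0
      refine (le_trans ?_ h3).trans ?_
      · rw [hw]
      · have h4 : (w q).natAbs = ((q.1 : ℤ) - q.2).natAbs * (a * ((q.1 : ℤ) + q.2) + b).natAbs := by
          rw [hw]
          dsimp only
          rw [Int.natAbs_mul]
        rw [h4]
        have h5 := tau_mul ((q.1 : ℤ) - q.2).natAbs (a * ((q.1 : ℤ) + q.2) + b).natAbs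
        have h6 : (0 : ℝ) ≤ if q.1 = q.2 then (x : ℝ) else 0 := by
          split_ifs
          · linarith
          · exact le_rfl
        linarith
  have h3 : ∑ q ∈ Icc 1 x ×ˢ Icc 1 x, (if q.1 = q.2 then (x : ℝ) else 0) = x ^ 2 := by
    rw [Finset.sum_product]
    have h4 : ∀ m ∈ Icc 1 x, ∑ n ∈ Icc 1 x, (if m = n then (x : ℝ) else 0) = x := by
      intro m hm
      rw [Finset.sum_ite_eq, if_pos hm]
    rw [Finset.sum_congr rfl h4, Finset.sum_const, Nat.card_Icc, Nat.add_sub_cancel, nsmul_eq_mul]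
    ring
  -- the divisor sums
  set M : ℕ := 4 * a.toNat * x with hM
  have hMR : (M : ℝ) = 4 * a * x := by
    rw [hM]
    have h5 : ((a.toNat : ℕ) : ℝ) = (a : ℝ) := by
      have : ((a.toNat : ℕ) : ℤ) = a := Int.toNat_of_nonneg (by omega)
      exact_mod_cast this
    push_cast
    rw [h5]
  have hMZ : (M : ℤ) = 4 * a * x := by
    have h5 : ((a.toNat : ℕ) : ℤ) = a := Int.toNat_of_nonneg (by omega)
    rw [hM]
    push_cast
    rw [← Int.toNat_of_nonneg (show 0 ≤ a by omega)]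
    simp
  have h4 : ∑ q ∈ Icc 1 x ×ˢ Icc 1 x, tau ((q.1 : ℤ) - q.2).natAbs * tau (a * ((q.1 : ℤ) + q.2) + b).natAbs ≤
      (∑ v ∈ Icc (-(x : ℤ)) x, tau v.natAbs) * ∑ u ∈ Icc (-(M : ℤ)) M, tau u.natAbs := by
    rw [Finset.sum_mul_sum, ← Finset.sum_product']
    set g : ℕ × ℕ → ℤ × ℤ := fun q => ((q.1 : ℤ) - q.2, a * ((q.1 : ℤ) + q.2) + b) with hg
    have hinj : Set.InjOn g (Icc 1 x ×ˢ Icc 1 x : Finset (ℕ × ℕ)) := by
      intro q _ r _ he
      rw [hg] at he
      dsimp only at he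
      rw [Prod.mk.injEq] at he
      obtain ⟨e1, e2⟩ := he
      have e3 : ((q.1 : ℤ) + q.2) = ((r.1 : ℤ) + r.2) := by
        apply mul_left_cancel₀ (by omega : a ≠ 0)
        linarith
      apply Prod.ext <;> omega
    have h5 : ∑ q ∈ Icc 1 x ×ˢ Icc 1 x, tau ((q.1 : ℤ) - q.2).natAbs * tau (a * ((q.1 : ℤ) + q.2) + b).natAbs =
        ∑ p ∈ (Icc 1 x ×ˢ Icc 1 x).image g, tau p.1.natAbs * tau p.2.natAbs := by
      rw [Finset.sum_image hinj]
    rw [h5]
    apply Finset.sum_le_sum_of_subset_of_nonneg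
    · intro p hp
      rw [mem_image] at hp
      obtain ⟨q, hq, rfl⟩ := hp
      rw [mem_product, mem_Icc, mem_Icc] at hq
      rw [mem_product, mem_Icc, mem_Icc, hg]
      dsimp only
      have hb' := abs_le.1 hb
      refine ⟨⟨by omega, by omega⟩, ?_, ?_⟩
      · rw [hMZ]
        have e1 : (0 : ℤ) ≤ a * ((q.1 : ℤ) + q.2) := by positivity
        have e2 : a * 1 ≤ a * (x : ℤ) := mul_le_mul_of_nonneg_left (by exact_mod_cast hx) (by omega)
        nlinarith
      · rw [hMZ]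
        have e1 : a * ((q.1 : ℤ) + q.2) ≤ a * (2 * x) := mul_le_mul_of_nonneg_left (by omega) (by omega)
        have e2 : a * 1 ≤ a * (x : ℤ) := mul_le_mul_of_nonneg_left (by exact_mod_cast hx) (by omega)
        nlinarith
    · intro p _ _
      exact mul_nonneg (tau_nonneg _) (tau_nonneg _)
  have h5 := sum_tau_int x
  have h6 := sum_tau_int M
  rw [hMR] at h6
  have hlog1 : Real.log x ≤ Real.log (4 * a * x) := by
    apply Real.log_le_log (by linarith)
    nlinarith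
  have hlog0 : 0 ≤ Real.log (x : ℝ) := Real.log_nonneg hxR
  set ℓ := 1 + Real.log (4 * a * x) with hℓ
  have hℓ1 : 1 ≤ ℓ := by rw [hℓ]; linarith
  have h7 : (∑ v ∈ Icc (-(x : ℤ)) x, tau v.natAbs) * ∑ u ∈ Icc (-(M : ℤ)) M, tau u.natAbs ≤
      (2 * (x * ℓ)) * (2 * (4 * a * x * ℓ)) := by
    apply mul_le_mul _ h6 (Finset.sum_nonneg fun _ _ => tau_nonneg _) (by positivity)
    refine h5.trans ?_
    apply mul_le_mul_of_nonneg_left _ (by norm_num)
    apply mul_le_mul_of_nonneg_left _ (by linarith)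
    rw [hℓ]
    linarith
  have h8 : ((((Icc 1 x ×ˢ Icc 1 x) ×ˢ (Icc 1 x ×ˢ Icc 1 x)).filter (fun q : (ℕ × ℕ) × (ℕ × ℕ) =>
      w q.2 = w q.1)).card : ℝ) ≤ x ^ 2 + 2 * ((2 * (x * ℓ)) * (2 * (4 * a * x * ℓ))) := by
    rw [h1]
    refine (Finset.sum_le_sum h2).trans ?_
    rw [Finset.sum_add_distrib, h3, ← Finset.mul_sum]
    have := h4.trans h7
    linarith
  refine (le_trans (le_of_eq ?_) h8).trans ?_
  · rw [hw]
  · have h9 : (x : ℝ) ^ 2 ≤ a * x ^ 2 * ℓ ^ 2 := by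
      have e1 : (1 : ℝ) ≤ ℓ ^ 2 := one_le_pow₀ hℓ1
      have e2 : (0 : ℝ) ≤ (x : ℝ) ^ 2 := by positivity
      calc (x : ℝ) ^ 2 = 1 * x ^ 2 * 1 := by ring
        _ ≤ a * x ^ 2 * ℓ ^ 2 := by gcongr
    nlinarith

/-- the additive energy of order 2 -/
theorem energy_le (a b : ℤ) (x : ℕ) (ha : 1 ≤ a) (hb : |b| ≤ 2 * a) :
    (energy 2 x (qv a b) : ℝ) ≤ 33 * a * x ^ 2 * (1 + Real.log (4 * a * x)) ^ 2 := by
  classical
  refine le_trans ?_ (quad a b x ha hb)
  unfold energy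
  apply Nat.cast_le.2
  apply Finset.card_le_card_of_injOn (fun q : (Fin 2 → ℕ) × (Fin 2 → ℕ) => ((q.1 0, q.2 0), (q.2 1, q.1 1)))
  · intro q hq
    rw [Finset.mem_coe, mem_filter, mem_product, Fintype.mem_piFinset, Fintype.mem_piFinset, Fin.sum_univ_two,
      Fin.sum_univ_two] at hq
    obtain ⟨⟨h1, h2⟩, h3⟩ := hq
    rw [Finset.mem_coe, mem_filter, mem_product, mem_product, mem_product]
    refine ⟨⟨⟨h1 0, h2 0⟩, h2 1, h1 1⟩, ?_⟩
    dsimp only
    unfold qv at h3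
    linear_combination -h3
  · intro q _ r _ he
    simp only [Prod.mk.injEq] at he
    obtain ⟨⟨e1, e2⟩, e3, e4⟩ := he
    apply Prod.ext
    · funext i
      fin_cases i
      · exact e1
      · exact e4
    · funext i
      fin_cases i
      · exact e2
      · exact e3

end Pool.Agent.H79.Q.En
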