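import Pool.Agent.H79.Q.One
import Pool.Agent.H79.Q.Asm

/-!
The formula for all polynomials of discriminant `D`, for almost all `D`.
-/

set_option autoImplicit false

namespace Pool.Agent.H79.Q.Fin

open Finset Polynomial Filter Topology
open Pool.Agent.helper24_UT
open Pool.Agent.H373R2.T7 (pz mem_pz Vz Vz_pos Vz_inv_small ev_L')
open Pool.Agent.Results.MP_a1177c_nt.AllTriples (Admissible eps gcdProd partialC primeCount logSum eps_pos gcdProd_pos)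
open Pool.Agent.H79.Q.Th (df tp)
open Pool.Agent.H79.Q.En (qv)
open Pool.Agent.H79.Q.Cst (GC)
open Pool.Agent.H79.Q.One (c0 c0_bd res_bd disc)

/-- the conclusion for the discriminant `D` -/
def HoldsFor (e A B X : ℕ) (D : ℤ) : Prop :=
  ∀ a b c : ℤ, Admissible a b c → b ^ 2 - 4 * a * c = D → (a : ℝ) ≤ Real.log X ^ B →
    ∃ S : ℝ, 0 < S ∧ Tendsto (fun z => partialC a b c z) atTop (𝓝 S) ∧
      ∀ y : ℕ, (X : ℝ) ^ (1 / 6 + 1 / e : ℝ) ≤ y → (y : ℝ) ≤ Real.sqrt X * Real.log X ^ B →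
        (|b| : ℝ) ≤ y * Real.log X ^ B →
        |primeCount a b c y - eps a b * S * gcdProd a b * logSum a b c y| ≤
          eps a b * S * gcdProd a b * logSum a b c y / Real.log X ^ A

open Classical in
theorem main (e A B : ℕ) (he : 1 ≤ e) : ∃ X₀ : ℕ, ∀ X : ℕ, X₀ ≤ X →
    (((Icc (-(X : ℤ)) X).filter (fun D => ¬ HoldsFor e A B X D)).card : ℝ) ≤ X / Real.log X ^ A := by
  obtain ⟨A2, hA2⟩ : ∃ A2 : ℕ, A2 = A + B + 5 := ⟨_, rfl⟩
  obtain ⟨A1, hA1⟩ : ∃ A1 : ℕ, A1 = A + 7 * B + 6 := ⟨_, rfl⟩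
  obtain ⟨K, hK⟩ : ∃ K : ℕ, K = A2 + 2 := ⟨_, rfl⟩
  obtain ⟨Ea, hEa⟩ := Th.bad2 t_LE (2 * e) A1 B (by omega)
  obtain ⟨Eb, hEb⟩ := Cst.cst t_LE A1 K
  obtain ⟨E, hE⟩ : ∃ E : ℕ, E = Ea + Eb + B + 1 := ⟨_, rfl⟩
  obtain ⟨N₁, hN₁⟩ := hEa (E + 1)
  obtain ⟨N₂, hN₂⟩ := hEb (E + 1)
  obtain ⟨N₃, hN₃⟩ := Mtl.main 1 2 (E + 1) A2
  obtain ⟨N₄, hN₄⟩ := Vz_inv_small (E + 1)
  obtain ⟨N₅, hN₅⟩ := ev_L' 1300
  obtain ⟨N₆, hN₆⟩ := Dp.big (2 ^ (A2 + 3)) (by positivity) (5 * B + 3 + A2) 1 (2 * e) (by omega)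
  obtain ⟨N₇, hN₇⟩ := Dp.big (2 ^ (A2 + 1)) (by positivity) (A2 + 1) 1 12 (by omega)
  obtain ⟨N₈, hN₈⟩ := Dp.big 2 (by norm_num) (5 * B + 2) 1 1 (by omega)
  refine ⟨N₁ + N₂ + N₃ + N₄ + N₅ + N₆ + N₇ + N₈ + 4, ?_⟩
  intro X hX
  have hX1 : 1 ≤ X := by omega
  have hXR : (1 : ℝ) ≤ X := by exact_mod_cast hX1
  have hX0 : (0 : ℝ) < X := lt_of_lt_of_le one_pos hXR
  have hLx := hN₅ X (by omega)
  have hb6 := hN₆ X (by omega)
  have hb7 := hN₇ X (by omega)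
  have hb8 := hN₈ X (by omega)
  rw [pow_one] at hb6 hb7 hb8
  obtain ⟨Lx, hLxd⟩ : ∃ Lx : ℝ, Lx = Real.log X := ⟨_, rfl⟩
  rw [← hLxd] at hLx hb6 hb7 hb8
  have hLx0 : 0 < Lx := by linarith
  have hLx1 : 1 ≤ Lx := by linarith
  have hb8' : 2 * Lx ^ (5 * B + 2) ≤ X := by
    have h1 : (X : ℝ) ^ (1 / ((1 : ℕ) : ℝ)) = X := by simp
    rwa [h1] at hb8
  -- the parameters
  obtain ⟨M, hM⟩ : ∃ M : ℕ, M = ⌈Lx ^ (5 * B + 2)⌉₊ := ⟨_, rfl⟩
  have hLp : 1 ≤ Lx ^ (5 * B + 2) := one_le_pow₀ hLx1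
  have hM1 : Lx ^ (5 * B + 2) ≤ M := by rw [hM]; exact Nat.le_ceil _
  have hM2 : (M : ℝ) ≤ 2 * Lx ^ (5 * B + 2) := by
    have : (M : ℝ) < Lx ^ (5 * B + 2) + 1 := by rw [hM]; exact Nat.ceil_lt_add_one (by linarith)
    linarith
  have hMR : (1 : ℝ) ≤ M := hLp.trans hM1
  have hM0 : 1 ≤ M := by exact_mod_cast hMR
  obtain ⟨N, hN⟩ : ∃ N : ℕ, N = X * M := ⟨_, rfl⟩
  have hNR : (N : ℝ) = X * M := by rw [hN]; push_cast; rfl
  have hXN : X ≤ N := by rw [hN]; exact Nat.le_mul_of_pos_right X (by omega)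
  have hXNR : (X : ℝ) ≤ N := by exact_mod_cast hXN
  have hN0 : (0 : ℝ) < N := lt_of_lt_of_le hX0 hXNR
  have hM0R : (0 : ℝ) ≤ M := Nat.cast_nonneg M
  obtain ⟨L, hL⟩ : ∃ L : ℝ, L = Real.log N := ⟨_, rfl⟩
  have hLL : Lx ≤ L := by rw [hLxd, hL]; exact Real.log_le_log hX0 hXNR
  have hLL2 : L ≤ 2 * Lx := by
    have h1 : (N : ℝ) ≤ (X : ℝ) ^ 2 := by
      rw [hNR, sq]
      exact mul_le_mul_of_nonneg_left (hM2.trans hb8') hX0.le
    rw [hLxd, hL]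
    calc Real.log N ≤ Real.log ((X : ℝ) ^ 2) := Real.log_le_log hN0 h1
      _ = 2 * Real.log X := by rw [Real.log_pow]; push_cast; ring
  have hL0 : 0 < L := by linarith
  have hL1 : 1 ≤ L := by linarith
  have hNc : 28 * X * Lx ^ (5 * B) ≤ N := by
    rw [hNR]
    calc 28 * (X : ℝ) * Lx ^ (5 * B) = X * (28 * Lx ^ (5 * B)) := by ring
      _ ≤ X * M := by
        apply mul_le_mul_of_nonneg_left _ hX0.le
        refine le_trans ?_ hM1
        rw [pow_add, mul_comm]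
        apply mul_le_mul_of_nonneg_left _ (by positivity)
        nlinarith
  obtain ⟨z, hz⟩ : ∃ z : ℕ, z = ⌈L ^ E⌉₊ := ⟨_, rfl⟩
  have hLE : 1 ≤ L ^ E := one_le_pow₀ hL1
  have hz1 : L ^ E ≤ z := by rw [hz]; exact Nat.le_ceil _
  have hz2 : (z : ℝ) ≤ L ^ (E + 1) := by
    have : (z : ℝ) < L ^ E + 1 := by rw [hz]; exact Nat.ceil_lt_add_one (by linarith)
    rw [pow_succ]
    nlinarith
  have hzge : 2 ≤ z := by
    have : (2 : ℝ) ≤ z := by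
      calc (2 : ℝ) ≤ L := by linarith
        _ = L ^ 1 := (pow_one _).symm
        _ ≤ L ^ E := pow_le_pow_right₀ hL1 (by omega)
        _ ≤ z := hz1
    exact_mod_cast this
  have hzB : L ^ B ≤ z := (pow_le_pow_right₀ hL1 (by omega)).trans hz1
  have hP := hN₁ N (by omega) z (by rw [← hL]; exact (pow_le_pow_right₀ hL1 (by omega)).trans hz1)
    (by rw [← hL]; exact hz2)
  have hC := hN₂ N (by omega) z (by rw [← hL]; exact (pow_le_pow_right₀ hL1 (by omega)).trans hz1)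
    (by rw [← hL]; exact hz2)
  have hMT := hN₃ N (by omega) z (by omega) (by rw [← hL]; exact hz2)
  have hV := hN₄ N (by omega) z (by omega) (by rw [← hL]; exact hz2)
  rw [← hL] at hP hC hMT hV
  rw [← hLxd]
  -- the exceptional sets
  obtain ⟨M', hM'⟩ : ∃ M' : ℕ, M' = ⌊Lx ^ B⌋₊ := ⟨_, rfl⟩
  have hLB0 : 0 ≤ Lx ^ B := by positivity
  have hM'R : (M' : ℝ) ≤ Lx ^ B := by rw [hM']; exact Nat.floor_le hLB0
  obtain ⟨BP, hBP⟩ : ∃ BP : ℤ × ℤ → Finset ℤ, BP = fun p => if 1 ≤ p.1 ∧ |p.2| ≤ 2 * p.1 then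
    ((Icc (-(N : ℤ)) N).filter (fun c => ∃ y : ℕ, Key.Rg (2 * e) N p.1 y ∧
      (y : ℝ) / L ^ A1 < |∑ n ∈ Icc 1 y, df z (qv p.1 p.2 n + c)|)).image (fun c => p.2 ^ 2 - 4 * p.1 * c) else ∅ := ⟨_, rfl⟩
  obtain ⟨BC, hBC⟩ : ∃ BC : Finset ℤ, BC = (Icc (-(N : ℤ)) N).filter (fun D => ¬ IsSquare D ∧ ¬ GC K N z D) := ⟨_, rfl⟩
  obtain ⟨I, hI⟩ : ∃ I : Finset (ℤ × ℤ), I = Icc (1 : ℤ) M' ×ˢ Icc (-(2 * (M' : ℤ))) (2 * M') := ⟨_, rfl⟩
  have hNL : (0 : ℝ) ≤ N / L ^ A1 := by positivity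
  have hBPc : ∀ p ∈ I, ((BP p).card : ℝ) ≤ N / L ^ A1 := by
    intro p hp
    rw [hI, mem_product, mem_Icc, mem_Icc] at hp
    rw [hBP]
    dsimp only
    split_ifs with h
    · have hpa : (p.1 : ℝ) ≤ L ^ B := by
        have h1 : (p.1 : ℝ) ≤ M' := by exact_mod_cast hp.1.2
        exact h1.trans (hM'R.trans (pow_le_pow_left₀ hLx0.le hLL B))
      have h2 := hP p.1 p.2 h.1 hpa h.2
      refine le_trans ?_ h2
      exact_mod_cast Finset.card_image_le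
    · rw [card_empty, Nat.cast_zero]
      exact hNL
  have hBCc : (BC.card : ℝ) ≤ N / L ^ A1 := by rw [hBC]; exact hC
  have hIc : (I.card : ℝ) ≤ 5 * (Lx ^ B) ^ 2 := by
    rw [hI, card_product, Int.card_Icc, Int.card_Icc]
    have e1 : ((M' : ℤ) + 1 - 1).toNat = M' := by omega
    have e2 : (2 * (M' : ℤ) + 1 - -(2 * (M' : ℤ))).toNat = 4 * M' + 1 := by omega
    rw [e1, e2]
    push_cast
    have hLB1 : 1 ≤ Lx ^ B := one_le_pow₀ hLx1
    have h0 : (0 : ℝ) ≤ M' := Nat.cast_nonneg _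
    nlinarith
  have hsub : (Icc (-(X : ℤ)) X).filter (fun D => ¬ HoldsFor e A B X D) ⊆ BC ∪ I.biUnion BP := by
    intro D hD
    rw [mem_filter, mem_Icc] at hD
    obtain ⟨⟨hD1, hD2⟩, hDn⟩ := hD
    by_contra hcon
    rw [mem_union, not_or] at hcon
    obtain ⟨hc1, hc2⟩ := hcon
    apply hDn
    intro a b c hadm hdisc haL
    rw [← hLxd] at haL ⊢
    have ha : 1 ≤ a := hadm.1
    have hDX : |b ^ 2 - 4 * a * c| ≤ (X : ℤ) := by
      rw [hdisc, abs_le]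
      constructor <;> omega
    have hGC : GC K N z (b ^ 2 - 4 * a * c) := by
      by_contra hno
      apply hc1
      rw [hBC, mem_filter, mem_Icc]
      refine ⟨⟨by omega, by omega⟩, ?_, ?_⟩
      · rw [← hdisc]
        exact hadm.2.2.2
      · rw [← hdisc]
        exact hno
    have hc0N : |c0 a b c| ≤ (N : ℤ) := by
      refine (c0_bd a b c ha X hDX).trans ?_
      have h1 : (a : ℝ) + X ≤ N := by
        refine le_trans ?_ hNc
        have h2 : Lx ^ B ≤ Lx ^ (5 * B) := pow_le_pow_right₀ hLx1 (by omega)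
        have h3 : 1 ≤ Lx ^ (5 * B) := one_le_pow₀ hLx1
        have h4 : (a : ℝ) ≤ X * Lx ^ (5 * B) := by
          calc (a : ℝ) ≤ 1 * Lx ^ (5 * B) := by rw [one_mul]; exact haL.trans h2
            _ ≤ X * Lx ^ (5 * B) := mul_le_mul_of_nonneg_right hXR (by positivity)
        have h5 : (X : ℝ) ≤ X * Lx ^ (5 * B) := le_mul_of_one_le_right hX0.le h3
        have h6 : (0 : ℝ) ≤ X * Lx ^ (5 * B) := by positivity
        calc (a : ℝ) + X ≤ X * Lx ^ (5 * B) + X * Lx ^ (5 * B) := add_le_add h4 h5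
          _ = 2 * (X * Lx ^ (5 * B)) := by ring
          _ ≤ 28 * (X * Lx ^ (5 * B)) := mul_le_mul_of_nonneg_right (by norm_num) h6
          _ = 28 * X * Lx ^ (5 * B) := by ring
      exact_mod_cast h1
    have hc0N' := abs_le.1 hc0N
    have haM : a ≤ M' := by
      have h1 : ((a.toNat : ℕ) : ℝ) = (a : ℝ) := by
        have : ((a.toNat : ℕ) : ℤ) = a := Int.toNat_of_nonneg (by omega)
        exact_mod_cast this
      have h2 : a.toNat ≤ M' := by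
        rw [hM']
        apply Nat.le_floor
        rw [h1]
        exact haL
      omega
    have hgood : ∀ b' : ℤ, |b'| ≤ 2 * a → b' ^ 2 = (b % (2 * a)) ^ 2 → ∀ T : ℕ, Key.Rg (2 * e) N a T →
        |∑ n ∈ Icc 1 T, df z (qv a b' n + c0 a b c)| ≤ T / L ^ A1 := by
      intro b' hb' hsq T hT
      by_contra hno
      push Not at hno
      apply hc2
      rw [mem_biUnion]
      have hb'' := abs_le.1 hb'
      refine ⟨(a, b'), ?_, ?_⟩
      · rw [hI, mem_product, mem_Icc, mem_Icc]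
        exact ⟨⟨ha, haM⟩, by constructor <;> dsimp only <;> omega⟩
      · rw [hBP]
        dsimp only
        rw [if_pos ⟨ha, hb'⟩, mem_image]
        refine ⟨c0 a b c, ?_, ?_⟩
        · rw [mem_filter, mem_Icc]
          exact ⟨hc0N', T, hT, hno⟩
        · rw [hsq, disc, hdisc]
    have hr := res_bd a b ha
    obtain ⟨S, hS0, hS1, hS2⟩ := One.one e A B A1 A2 K X N z Lx L hLx hLL hL hX1 (by omega) hNc hA2 (by omega) hK hzge
      hzB hV hMT a b c hadm hDX haL hGC (hgood _ hr rfl) (hgood _ (by rw [abs_neg]; exact hr) (by ring))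
    refine ⟨S, hS0, hS1, ?_⟩
    intro y hy1 hy2 hy3
    have hy0 : (0 : ℝ) ≤ y := Nat.cast_nonneg y
    have heR : (1 : ℝ) ≤ e := by exact_mod_cast he
    have hXs : (X : ℝ) ^ (1 / 6 + 1 / (e : ℝ)) = (X : ℝ) ^ (1 / 6 + 1 / (2 * e : ℕ) : ℝ) * (X : ℝ) ^ (1 / ((2 * e : ℕ) : ℝ)) := by
      rw [← Real.rpow_add hX0]
      congr 1
      push_cast
      field_simp
      ring
    have hLA : L ^ A2 ≤ 2 ^ A2 * Lx ^ A2 := by
      rw [← mul_pow]
      exact pow_le_pow_left₀ hL0.le hLL2 A2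
    have hLA1 : L ^ (A2 + 1) ≤ 2 ^ (A2 + 1) * Lx ^ (A2 + 1) := by
      rw [← mul_pow]
      exact pow_le_pow_left₀ hL0.le hLL2 (A2 + 1)
    refine hS2 y hy2 hy3 ?_ ?_
    · refine le_trans ?_ hy1
      rw [hXs]
      have hs1 : (1 / 6 + 1 / (2 * e : ℕ) : ℝ) ≤ 1 := by
        have : (1 : ℝ) / ((2 * e : ℕ) : ℝ) ≤ 1 / 2 := by
          apply one_div_le_one_div_of_le (by norm_num)
          push_cast
          linarith
        linarith
      have hMs : (M : ℝ) ^ (1 / 6 + 1 / (2 * e : ℕ) : ℝ) ≤ M := by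
        calc (M : ℝ) ^ (1 / 6 + 1 / (2 * e : ℕ) : ℝ) ≤ (M : ℝ) ^ (1 : ℝ) := Real.rpow_le_rpow_of_exponent_le hMR hs1
          _ = M := Real.rpow_one _
      rw [hNR, Real.mul_rpow hX0.le hM0R]
      have hXp : (0 : ℝ) ≤ (X : ℝ) ^ (1 / 6 + 1 / (2 * e : ℕ) : ℝ) := by positivity
      calc (X : ℝ) ^ (1 / 6 + 1 / (2 * e : ℕ) : ℝ) * (M : ℝ) ^ (1 / 6 + 1 / (2 * e : ℕ) : ℝ) * (2 * L) * L ^ A2
          ≤ (X : ℝ) ^ (1 / 6 + 1 / (2 * e : ℕ) : ℝ) * (2 * Lx ^ (5 * B + 2)) * (2 * (2 * Lx)) * (2 ^ A2 * Lx ^ A2) := by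
            gcongr
            exact hMs.trans hM2
        _ = (X : ℝ) ^ (1 / 6 + 1 / (2 * e : ℕ) : ℝ) * (2 ^ (A2 + 3) * Lx ^ (5 * B + 3 + A2)) := by ring
        _ ≤ (X : ℝ) ^ (1 / 6 + 1 / (2 * e : ℕ) : ℝ) * (X : ℝ) ^ (1 / ((2 * e : ℕ) : ℝ)) :=
            mul_le_mul_of_nonneg_left hb6 hXp
    · have h1 : Real.exp (Real.sqrt L) ≤ (X : ℝ) ^ (1 / 12 : ℝ) := by
        rw [Real.rpow_def_of_pos hX0, ← hLxd]
        apply Real.exp_le_exp.2
        rw [Real.sqrt_le_left (by positivity)]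
        nlinarith
      have h2 : L ^ (A2 + 1) ≤ (X : ℝ) ^ (1 / ((12 : ℕ) : ℝ)) := hLA1.trans hb7
      calc Real.exp (Real.sqrt L) * L * L ^ A2 = Real.exp (Real.sqrt L) * L ^ (A2 + 1) := by ring
        _ ≤ (X : ℝ) ^ (1 / 12 : ℝ) * (X : ℝ) ^ (1 / ((12 : ℕ) : ℝ)) := by gcongr
        _ = (X : ℝ) ^ (1 / 6 : ℝ) := by
            rw [← Real.rpow_add hX0]
            norm_num
        _ ≤ (X : ℝ) ^ (1 / 6 + 1 / e : ℝ) := by
            apply Real.rpow_le_rpow_of_exponent_le hXR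
            have : (0 : ℝ) ≤ 1 / e := by positivity
            linarith
        _ ≤ y := hy1
  have hcard : (((Icc (-(X : ℤ)) X).filter (fun D => ¬ HoldsFor e A B X D)).card : ℝ) ≤
      BC.card + ∑ p ∈ I, ((BP p).card : ℝ) := by
    have h1 := (card_le_card hsub).trans (card_union_le _ _)
    have h2 : (I.biUnion BP).card ≤ ∑ p ∈ I, (BP p).card := Finset.card_biUnion_le
    have h3 := h1.trans (Nat.add_le_add_left h2 _)
    exact_mod_cast h3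
  have hsum : ∑ p ∈ I, ((BP p).card : ℝ) ≤ I.card * (N / L ^ A1) := by
    refine (Finset.sum_le_card_nsmul _ _ _ hBPc).trans ?_
    rw [nsmul_eq_mul]
  refine hcard.trans ?_
  have hLB1 : 1 ≤ Lx ^ B := one_le_pow₀ hLx1
  have h1 : (BC.card : ℝ) + ∑ p ∈ I, ((BP p).card : ℝ) ≤ 6 * (Lx ^ B) ^ 2 * (N / L ^ A1) := by
    have h2 : (I.card : ℝ) * (N / L ^ A1) ≤ 5 * (Lx ^ B) ^ 2 * (N / L ^ A1) := mul_le_mul_of_nonneg_right hIc hNL
    have h3 : N / L ^ A1 ≤ (Lx ^ B) ^ 2 * (N / L ^ A1) := by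
      have : 1 ≤ (Lx ^ B) ^ 2 := one_le_pow₀ hLB1
      nlinarith
    linarith
  refine h1.trans ?_
  have hpos : 0 < Lx ^ A1 := by positivity
  calc 6 * (Lx ^ B) ^ 2 * ((N : ℝ) / L ^ A1) ≤ 6 * (Lx ^ B) ^ 2 * ((X * (2 * Lx ^ (5 * B + 2))) / Lx ^ A1) := by
        apply mul_le_mul_of_nonneg_left _ (by positivity)
        apply div_le_div₀ (by positivity) _ hpos (pow_le_pow_left₀ hLx0.le hLL A1)
        rw [hNR]
        exact mul_le_mul_of_nonneg_left hM2 hX0.le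
    _ = X * (12 * Lx ^ (7 * B + 2) / Lx ^ A1) := by
        have : Lx ^ (7 * B + 2) = (Lx ^ B) ^ 2 * Lx ^ (5 * B + 2) := by
          rw [← pow_mul, ← pow_add]
          congr 1
          ring
        rw [this]
        ring
    _ ≤ X * (1 / Lx ^ A) := by
        apply mul_le_mul_of_nonneg_left _ hX0.le
        rw [div_le_div_iff₀ hpos (by positivity)]
        have e1 : Lx ^ A1 = Lx ^ 4 * Lx ^ (7 * B + 2) * Lx ^ A := by
          rw [← pow_add, ← pow_add, hA1]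
          congr 1
          ring
        rw [e1]
        have e2 : 12 ≤ Lx ^ 4 := by
          calc (12 : ℝ) ≤ Lx := by linarith
            _ = Lx ^ 1 := (pow_one _).symm
            _ ≤ Lx ^ 4 := pow_le_pow_right₀ hLx1 (by norm_num)
        have e3 : 0 ≤ Lx ^ (7 * B + 2) * Lx ^ A := by positivity
        nlinarith
    _ = X / Lx ^ A := by ring

end Pool.Agent.H79.Q.Fin
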