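import Pool.Agent.H79.Q.En
import Pool.Graph.R_pool_sql_team_seeded_620a6dc7.helper24_UT_.Dp

/-!
Primes minus the sieve model at the values of `a m² + b m + c` for almost all `c`, uniformly in `a ≤ (log N)^B`.
-/

set_option autoImplicit false

namespace Pool.Agent.H79.Q.Key

open Finset
open Pool.Agent.helper24_UT
open Pool.Agent.H79.Q.En (qv energy_le)
open Pool.Agent.helper24_UT.Dp (dual markov gr grid fin1 tail1 mk1 Ed_bd)

lemma qv_bd (a b : ℤ) (ha : 1 ≤ a) (hb : |b| ≤ 2 * a) (Y m : ℕ) (hm : m ∈ Icc 1 Y) :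
    |qv a b m| ≤ 3 * a * (Y : ℤ) ^ 2 := by
  rw [mem_Icc] at hm
  unfold qv
  have h1 : (1 : ℤ) ≤ m := by exact_mod_cast hm.1
  have h2 : (m : ℤ) ≤ Y := by exact_mod_cast hm.2
  have hb' := abs_le.1 hb
  have h3 : (m : ℤ) ^ 2 ≤ (Y : ℤ) ^ 2 := by nlinarith
  have h4 : (m : ℤ) ≤ (Y : ℤ) ^ 2 := by nlinarith
  have h5 : a * (m : ℤ) ^ 2 ≤ a * (Y : ℤ) ^ 2 := mul_le_mul_of_nonneg_left h3 (by omega)
  have h6 : a * (m : ℤ) ≤ a * (Y : ℤ) ^ 2 := mul_le_mul_of_nonneg_left h4 (by omega)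
  have h7 : 0 ≤ a * (m : ℤ) ^ 2 := by positivity
  have h8 : 0 ≤ a * (Y : ℤ) ^ 2 := by positivity
  rw [abs_le]
  constructor
  · nlinarith
  · nlinarith

theorem key (hLE : S_LE (1 / 3)) (e U B : ℕ) (he : 1 ≤ e) :
    ∃ E₀ : ℕ, ∀ E₁ : ℕ, ∃ N₀ : ℕ, ∀ N : ℕ, N₀ ≤ N → ∀ z : ℕ, (Real.log N) ^ E₀ ≤ z →
      (z : ℝ) ≤ (Real.log N) ^ E₁ → ∀ a b : ℤ, 1 ≤ a → (a : ℝ) ≤ (Real.log N) ^ B → |b| ≤ 2 * a →
      ∀ Y : ℕ, (N : ℝ) ^ (1 / 6 + 1 / e : ℝ) ≤ 8 * Y →
      7 * a * (Y : ℤ) ^ 2 ≤ N → ∀ σ τ : ℤ, (σ = 1 ∨ σ = -1) → (τ = 1 ∨ τ = -1) → ∀ G : ℕ → ℂ, (∀ n, ‖G n‖ ≤ 1) →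
      ∑ m ∈ Icc 1 Y, ‖∑ n ∈ Icc 1 N, G n * (Ed z (τ * n + σ * qv a b m) : ℂ)‖ ≤
        (N : ℝ) * Y / (Real.log N) ^ U := by
  obtain ⟨B₀, hB₀⟩ := hLE 2 e 1 (2 * B + 3) U (by norm_num) he
  refine ⟨B₀, fun E => ?_⟩
  obtain ⟨N₁, hN₁⟩ := hB₀ E
  obtain ⟨N₂, hN₂⟩ := Pool.Agent.H373R2.T7.ev_L' 924
  obtain ⟨N₃, hN₃⟩ : ∃ N₃ : ℕ, ∀ N : ℕ, N₃ ≤ N → (11 : ℝ) ≤ (N : ℝ) ^ (1 / (e : ℝ)) := by
    have hpos : (0 : ℝ) < 1 / (e : ℝ) := by
      have : (1 : ℝ) ≤ e := by exact_mod_cast he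
      positivity
    have h1 := (tendsto_rpow_atTop hpos).comp (tendsto_natCast_atTop_atTop (R := ℝ))
    obtain ⟨N₃, h3⟩ := Filter.eventually_atTop.1 (h1.eventually_ge_atTop 11)
    exact ⟨N₃, h3⟩
  refine ⟨N₁ + N₂ + N₃ + 1, ?_⟩
  intro N hN z hz1 hz2 a b ha haL hb Y hY1 hY2 σ τ hσ hτ G hG
  have hNpos : (1 : ℝ) ≤ N := by exact_mod_cast (by omega : 1 ≤ N)
  have hL := hN₂ N (by omega)
  have hL1 : 1 ≤ Real.log N := by linarith
  have haR : (1 : ℝ) ≤ a := by exact_mod_cast ha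
  have hY0 : 1 ≤ Y := by
    by_contra hcon
    have h0 : Y = 0 := by omega
    rw [h0, Nat.cast_zero, mul_zero] at hY1
    have : (0 : ℝ) < (N : ℝ) ^ (1 / 6 + 1 / e : ℝ) := Real.rpow_pos_of_pos (by linarith) _
    linarith
  have hYR : (1 : ℝ) ≤ Y := by exact_mod_cast hY0
  have hYZ : (1 : ℤ) ≤ (Y : ℤ) := by exact_mod_cast hY0
  set H : ℕ := 6 * a.toNat * Y ^ 2 + 1 with hH
  have haZ : ((a.toNat : ℕ) : ℤ) = a := Int.toNat_of_nonneg (by omega)
  have haN : ((a.toNat : ℕ) : ℝ) = (a : ℝ) := by exact_mod_cast haZ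
  have hHZ : (H : ℤ) = 6 * a * (Y : ℤ) ^ 2 + 1 := by
    rw [hH]
    push_cast
    rw [Int.toNat_of_nonneg (show (0 : ℤ) ≤ a by omega)]
  have hHR : (H : ℝ) = 6 * a * (Y : ℝ) ^ 2 + 1 := by exact_mod_cast hHZ
  have hY2R : 7 * (a : ℝ) * (Y : ℝ) ^ 2 ≤ N := by exact_mod_cast hY2
  have haY : (1 : ℤ) ≤ a * (Y : ℤ) ^ 2 := by
    have : (1 : ℤ) ≤ (Y : ℤ) ^ 2 := by nlinarith
    nlinarith
  have haYR : (1 : ℝ) ≤ a * (Y : ℝ) ^ 2 := by exact_mod_cast haY
  have hHN : H ≤ N := by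
    have : (H : ℤ) ≤ N := by
      rw [hHZ]
      nlinarith
    exact_mod_cast this
  have hHlow : (N : ℝ) ^ (1 / 3 + 1 / (e : ℝ) : ℝ) ≤ H := by
    have h1 : (N : ℝ) ^ (1 / 6 + 1 / e : ℝ) * (N : ℝ) ^ (1 / 6 + 1 / e : ℝ) ≤ (8 * Y) * (8 * Y) := by
      have : (0 : ℝ) ≤ (N : ℝ) ^ (1 / 6 + 1 / e : ℝ) := by positivity
      exact mul_le_mul hY1 hY1 this (by positivity)
    have h2 : (N : ℝ) ^ (1 / 6 + 1 / e : ℝ) * (N : ℝ) ^ (1 / 6 + 1 / e : ℝ) =
        (N : ℝ) ^ (1 / 3 + 1 / (e : ℝ) : ℝ) * (N : ℝ) ^ (1 / (e : ℝ)) := by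
      rw [← Real.rpow_add (by linarith), ← Real.rpow_add (by linarith)]
      congr 1
      ring
    have h3 := hN₃ N (by omega)
    have h4 : (0 : ℝ) ≤ (N : ℝ) ^ (1 / 3 + 1 / (e : ℝ) : ℝ) := by positivity
    have h5 : (N : ℝ) ^ (1 / 3 + 1 / (e : ℝ) : ℝ) * 11 ≤ 64 * (Y : ℝ) ^ 2 := by
      calc (N : ℝ) ^ (1 / 3 + 1 / (e : ℝ) : ℝ) * 11 ≤ (N : ℝ) ^ (1 / 3 + 1 / (e : ℝ) : ℝ) * (N : ℝ) ^ (1 / (e : ℝ)) :=
            mul_le_mul_of_nonneg_left h3 h4
        _ ≤ (8 * Y) * (8 * Y) := by rw [← h2]; exact h1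
        _ = 64 * (Y : ℝ) ^ 2 := by ring
    rw [hHR]
    have h6 : (Y : ℝ) ^ 2 ≤ a * (Y : ℝ) ^ 2 := by
      have : (0 : ℝ) ≤ (Y : ℝ) ^ 2 := by positivity
      nlinarith
    nlinarith
  have hc : |(-(3 * a * (Y : ℤ) ^ 2) - 1)| ≤ (1 : ℕ) * (N : ℤ) := by
    have h1 : ((1 : ℕ) : ℤ) * (N : ℤ) = N := by push_cast; ring
    have h2 : 0 ≤ a * (Y : ℤ) ^ 2 := by positivity
    rw [h1, abs_le]
    constructor <;> linarith
  have hFam : Fam 2 (2 * B + 3) N H Y (-(3 * a * (Y : ℤ) ^ 2) - 1) (fun m => σ * qv a b m) := by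
    constructor
    · intro m hm
      have h1 := abs_le.1 (qv_bd a b ha hb Y m hm)
      rw [hHZ]
      rcases hσ with rfl | rfl
      · constructor <;> linarith [h1.1, h1.2]
      · constructor <;> linarith [h1.1, h1.2]
    · have h1 : (Pool.Agent.H373R2.T7.energy 2 Y (fun m => σ * qv a b m) : ℝ) ≤
          33 * a * Y ^ 2 * (1 + Real.log (4 * a * Y)) ^ 2 := by
        rcases hσ with rfl | rfl
        · have h2 : (fun m : ℕ => (1 : ℤ) * qv a b m) = qv a b := by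
            funext m
            ring
          rw [h2]
          exact energy_le a b Y ha hb
        · have h2 : (fun m : ℕ => (-1 : ℤ) * qv a b m) = fun m : ℕ => - (qv a b m) := by
            funext m
            ring
          rw [h2, Pool.Agent.TH823.Fam.energy_neg 2 Y (fun m => qv a b m)]
          exact energy_le a b Y ha hb
      have hY4 : (4 * (a : ℝ) * Y) ≤ N := by
        refine le_trans ?_ hY2R
        have : (Y : ℝ) ≤ (Y : ℝ) ^ 2 := by nlinarith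
        nlinarith
      have h3 : Real.log (4 * a * Y) ≤ Real.log N := Real.log_le_log (by positivity) hY4
      have h3' : 0 ≤ Real.log (4 * a * Y) := by
        apply Real.log_nonneg
        nlinarith
      have h4 : (1 + Real.log (4 * a * Y)) ^ 2 ≤ (2 * Real.log N) ^ 2 :=
        pow_le_pow_left₀ (by linarith) (by linarith) 2
      have h5 : (H : ℝ) ≤ 7 * a * (Y : ℝ) ^ 2 := by
        rw [hHR]
        linarith
      have hLB : (0 : ℝ) ≤ (Real.log N) ^ B := by positivity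
      calc (Pool.Agent.H373R2.T7.energy 2 Y (fun m => σ * qv a b m) : ℝ) * H
          ≤ (33 * a * Y ^ 2 * (2 * Real.log N) ^ 2) * (7 * a * (Y : ℝ) ^ 2) := by
            apply mul_le_mul _ h5 (Nat.cast_nonneg _) (by positivity)
            refine h1.trans ?_
            exact mul_le_mul_of_nonneg_left h4 (by positivity)
        _ = 924 * (Real.log N) ^ 2 * ((a : ℝ) * a) * (Y : ℝ) ^ (2 * 2) := by ring
        _ ≤ (Real.log N) * (Real.log N) ^ 2 * ((Real.log N) ^ B * (Real.log N) ^ B) * (Y : ℝ) ^ (2 * 2) := by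
            gcongr
        _ = (Real.log N) ^ (2 * B + 3) * (Y : ℝ) ^ (2 * 2) := by ring
  exact hN₁ N (by omega) H hHlow hHN _ Y _ hc hFam z hz1 hz2 τ hτ N (by omega) G hG

/-- the exceptional constant terms -/
def Rg (e N : ℕ) (a : ℤ) (y : ℕ) : Prop := (N : ℝ) ^ (1 / 6 + 1 / e : ℝ) ≤ y ∧ 7 * a * (y : ℤ) ^ 2 ≤ N

open Classical in
theorem bad (hLE : S_LE (1 / 3)) (e A B : ℕ) (he : 1 ≤ e) : ∃ E₀ : ℕ, ∀ E₁ : ℕ, ∃ N₀ : ℕ, ∀ N : ℕ, N₀ ≤ N →
    ∀ z : ℕ, (Real.log N) ^ E₀ ≤ z → (z : ℝ) ≤ (Real.log N) ^ E₁ →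
    ∀ a b : ℤ, 1 ≤ a → (a : ℝ) ≤ (Real.log N) ^ B → |b| ≤ 2 * a → ∀ σ : ℤ, (σ = 1 ∨ σ = -1) →
    (((Icc (-(N : ℤ)) N).filter (fun c => ∃ y : ℕ, Rg e N a y ∧
      (y : ℝ) / (Real.log N) ^ A < |∑ n ∈ Icc 1 y, Ed z (σ * (qv a b n + c))|)).card : ℝ) ≤ N / (Real.log N) ^ A := by
  obtain ⟨E₀, hE₀⟩ := key hLE e (2 * A + 0 + (A + 0 + 4) + 6) B he
  refine ⟨E₀, fun E₁ => ?_⟩
  obtain ⟨N₁, hN₁⟩ := hE₀ E₁
  obtain ⟨N₂, hN₂⟩ := Pool.Agent.H373R2.T7.Vz_inv_small E₁
  obtain ⟨N₃, hN₃⟩ := Pool.Agent.H373R2.T7.ev_L' 100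
  obtain ⟨N₄, hN₄⟩ := Dp.big 8 (by norm_num) (A + 0 + 1) 1 e he
  obtain ⟨N₅, hN₅⟩ := Pool.Agent.H373R2.T7.ev_log' A 2
  refine ⟨N₁ + N₂ + N₃ + N₄ + N₅ + 4 + 1, ?_⟩
  intro N hN z hz1 hz2 a b ha haL hb σ hσ
  have hNpos : (1 : ℝ) ≤ N := by exact_mod_cast (by omega : 1 ≤ N)
  set L := Real.log N with hLdef
  have hL : 100 ≤ L := hN₃ N (by omega)
  have hL0 : 0 < L := by linarith
  have hL1 : 1 ≤ L := by linarith
  have hz0 : 1 ≤ z := by
    have h1 : (1 : ℝ) ≤ z := (one_le_pow₀ hL1).trans hz1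
    exact_mod_cast h1
  have hV := hN₂ N (by omega) z hz0 hz2
  have hNA : 2 * L ^ A ≤ N := by
    refine (hN₅ N (by omega)).trans ?_
    rw [Real.sqrt_le_left (by linarith)]
    nlinarith
  set M : ℕ := ⌈L ^ (A + 0 + 4)⌉₊ with hM
  have hLV : (1 : ℝ) ≤ L ^ (A + 0 + 4) := one_le_pow₀ hL1
  have hM1 : L ^ (A + 0 + 4) ≤ M := Nat.le_ceil _
  have hM2 : (M : ℝ) ≤ 2 * L ^ (A + 0 + 4) := by
    have := Nat.ceil_lt_add_one (show 0 ≤ L ^ (A + 0 + 4) by linarith)
    linarith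
  have hM0 : 1 ≤ M := by
    have : (1 : ℝ) ≤ M := hLV.trans hM1
    exact_mod_cast this
  set Kk : ℕ := ⌊(M : ℝ) * L⌋₊ + 1 with hKk
  have hKkb : (Kk : ℝ) ≤ 3 * L ^ (A + 0 + 5) := by
    rw [hKk]
    push_cast
    have h1 : ((⌊(M : ℝ) * L⌋₊ : ℕ) : ℝ) ≤ M * L := Nat.floor_le (by positivity)
    have h2 : (M : ℝ) * L ≤ 2 * L ^ (A + 0 + 5) := by
      calc (M : ℝ) * L ≤ (2 * L ^ (A + 0 + 4)) * L := mul_le_mul_of_nonneg_right hM2 hL0.le
        _ = 2 * L ^ (A + 0 + 5) := by rw [pow_succ L (A + 0 + 4)]; ring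
    have h3 : (1 : ℝ) ≤ L ^ (A + 0 + 5) := one_le_pow₀ hL1
    linarith
  -- the bad sets
  set S : ℤ → ℕ → ℕ → ℝ := fun τ Y n => ∑ m ∈ Icc 1 Y, Ed z (σ * τ * n + σ * qv a b m) with hS
  let Cond : ℕ → Prop := fun Y => 1 ≤ Y ∧ (N : ℝ) ^ (1 / 6 + 1 / e : ℝ) ≤ 8 * Y ∧ 7 * a * (Y : ℤ) ^ 2 ≤ N
  set Bad : ℕ × ℤ → Finset ℤ := fun q =>
    ((Icc 1 N).filter (fun n => Cond (gr M q.1) ∧ (gr M q.1 : ℝ) / (2 * L ^ A) < |S q.2 (gr M q.1) n|)).image
      (fun n : ℕ => q.2 * (n : ℤ)) with hBad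
  set I : Finset (ℕ × ℤ) := (range Kk) ×ˢ ({1, -1} : Finset ℤ) with hI
  have hBadcard : ∀ q ∈ I, ((Bad q).card : ℝ) ≤ N / L ^ (A + (A + 0 + 4) + 5) := by
    intro q hq
    rw [hI, Finset.mem_product] at hq
    have hτ : q.2 = 1 ∨ q.2 = -1 := by simpa using hq.2
    by_cases hC : Cond (gr M q.1)
    · set Y := gr M q.1 with hY
      have hY0 : (1 : ℝ) ≤ Y := by exact_mod_cast hC.1
      have hk := hN₁ N (by omega) z hz1 hz2 a b ha haL hb Y hC.2.1 hC.2.2 σ (σ * q.2) hσ (by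
        rcases hσ with h1 | h1 <;> rcases hτ with h2 | h2 <;> rw [h1, h2] <;> simp)
      have hd1 := dual Y N (fun _ => 1) (fun m n => Ed z (σ * q.2 * n + σ * qv a b m)) (L ^ 0) _ (by positivity)
        (by
          intro m hm
          simp) hk
      simp only [one_mul] at hd1
      have hmk := markov (Icc 1 N) (fun n => S q.2 Y n) ((Y : ℝ) / (2 * L ^ A)) _ (by positivity) hd1
      have hcard : ((Bad q).card : ℝ) ≤ (((Icc 1 N).filter (fun n => (Y : ℝ) / (2 * L ^ A) < |S q.2 Y n|)).card : ℝ) := by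
        rw [hBad]
        dsimp only
        rw [← hY]
        norm_cast
        refine (Finset.card_image_le).trans ?_
        apply Finset.card_le_card
        intro n hn
        rw [Finset.mem_filter] at hn ⊢
        exact ⟨hn.1, hn.2.2⟩
      refine hcard.trans (hmk.trans ?_)
      exact mk1 A 0 N Y L hL (by linarith) hY0
    · have h1 : Bad q = ∅ := by
        rw [hBad]
        dsimp only
        rw [Finset.image_eq_empty, Finset.filter_eq_empty_iff]
        intro n _ hn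
        exact hC hn.1
      rw [h1, Finset.card_empty, Nat.cast_zero]
      positivity
  have hsub : ((Icc (-(N : ℤ)) N).filter (fun c => ∃ y : ℕ, Rg e N a y ∧
      (y : ℝ) / L ^ A < |∑ n ∈ Icc 1 y, Ed z (σ * (qv a b n + c))|)) ⊆ {0} ∪ I.biUnion Bad := by
    intro c hc
    rw [Finset.mem_filter, Finset.mem_Icc] at hc
    obtain ⟨⟨hc1, hc2⟩, y, hy, hyc⟩ := hc
    rw [Finset.mem_union]
    by_cases hc0 : c = 0
    · left
      simp [hc0]
    · right
      rw [Finset.mem_biUnion]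
      -- the sign
      obtain ⟨τ, n, hτ, hn1, hcn⟩ : ∃ τ : ℤ, ∃ n : ℕ, (τ = 1 ∨ τ = -1) ∧ 1 ≤ n ∧ c = τ * n := by
        rcases lt_trichotomy c 0 with h | h | h
        · exact ⟨-1, c.natAbs, Or.inr rfl, by omega, by omega⟩
        · exact absurd h hc0
        · exact ⟨1, c.natAbs, Or.inl rfl, by omega, by omega⟩
      have hnN : n ≤ N := by
        rcases hτ with h | h <;> rw [h] at hcn <;> omega
      have hlow : (N : ℝ) ^ (1 / (e : ℝ)) ≤ y := by
        refine le_trans ?_ hy.1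
        apply Real.rpow_le_rpow_of_exponent_le hNpos
        linarith
      have hy8 : 8 * L ^ (A + 0 + 1) ≤ y := by
        have h1 := (hN₄ N (by omega)).trans hlow
        rwa [pow_one] at h1
      have hy1R : (1 : ℝ) ≤ y := by
        have : (1 : ℝ) ≤ L ^ (A + 0 + 1) := one_le_pow₀ hL1
        linarith
      have hy1 : 1 ≤ y := by exact_mod_cast hy1R
      have hyZ : (1 : ℤ) ≤ y := by exact_mod_cast hy1
      have hyN : y ≤ N := by
        have h1 : (y : ℤ) ≤ N := by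
          refine le_trans ?_ hy.2
          have : (y : ℤ) ≤ (y : ℤ) ^ 2 := by nlinarith
          nlinarith
        exact_mod_cast h1
      obtain ⟨k, hk1, hk2, hk3, hk4, hk5⟩ := grid M hM0 y hy1
      set Y := gr M k with hY
      have hkK : k ∈ range Kk := by
        rw [Finset.mem_range, hKk, Nat.lt_succ_iff]
        apply Nat.le_floor
        refine hk1.trans ?_
        apply mul_le_mul_of_nonneg_left _ (Nat.cast_nonneg _)
        exact Real.log_le_log (by linarith) (by exact_mod_cast hyN)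
      refine ⟨(k, τ), ?_, ?_⟩
      · rw [hI, Finset.mem_product]
        refine ⟨hkK, ?_⟩
        simpa using hτ
      · rw [hBad]
        dsimp only
        rw [Finset.mem_image]
        refine ⟨n, ?_, hcn.symm⟩
        rw [Finset.mem_filter, Finset.mem_Icc, ← hY]
        refine ⟨⟨hn1, hnN⟩, ⟨hk2, ?_, ?_⟩, ?_⟩
        · refine hy.1.trans ?_
          exact_mod_cast hk4
        · refine le_trans ?_ hy.2
          have h1 : (Y : ℤ) ≤ y := by exact_mod_cast hk3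
          have h2 : (0 : ℤ) ≤ Y := Int.natCast_nonneg _
          have h3 : (Y : ℤ) ^ 2 ≤ (y : ℤ) ^ 2 := by nlinarith
          exact mul_le_mul_of_nonneg_left h3 (by omega)
        · -- the tail
          have hEd : ∀ m ∈ Icc 1 y, |Ed z (σ * (qv a b m + c))| ≤ 2 * L := by
            intro m hm
            apply Ed_bd z N _ (by omega) _ hV
            have h1 := abs_le.1 (qv_bd a b ha hb y m hm)
            have h2 : (N : ℤ) + N ≤ (N : ℤ) ^ 2 := by
              have : (2 : ℤ) ≤ N := by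
                have : 2 ≤ N := by omega
                exact_mod_cast this
              nlinarith
            have h3 : 3 * a * (y : ℤ) ^ 2 ≤ N := by
              refine le_trans ?_ hy.2
              have : (0 : ℤ) ≤ a * (y : ℤ) ^ 2 := by positivity
              nlinarith
            rcases hσ with h | h <;> rw [h]
            · linarith [h1.2]
            · linarith [h1.1]
          have hsplit : ∑ m ∈ Icc 1 y, Ed z (σ * (qv a b m + c)) =
              S τ Y n + ∑ m ∈ Ioc Y y, Ed z (σ * (qv a b m + c)) := by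
            have h1 : Icc 1 y = Icc 1 Y ∪ Ioc Y y := by
              ext m
              simp only [Finset.mem_union, Finset.mem_Icc, Finset.mem_Ioc]
              omega
            have h2 : Disjoint (Icc 1 Y) (Ioc Y y) := by
              rw [Finset.disjoint_left]
              intro m hm hm2
              rw [Finset.mem_Icc] at hm
              rw [Finset.mem_Ioc] at hm2
              omega
            rw [h1, Finset.sum_union h2]
            congr 1
            rw [hS]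
            dsimp only
            refine Finset.sum_congr rfl fun m _ => ?_
            congr 1
            rw [hcn]
            ring
          have htail : |∑ m ∈ Ioc Y y, Ed z (σ * (qv a b m + c))| ≤ (y : ℝ) / (2 * L ^ A) := by
            have h1 : |∑ m ∈ Ioc Y y, Ed z (σ * (qv a b m + c))| ≤ ((y : ℝ) - Y) * (L ^ 0 * (2 * L)) := by
              refine (Finset.abs_sum_le_sum_abs _ _).trans ?_
              have h2 : ∀ m ∈ Ioc Y y, |Ed z (σ * (qv a b m + c))| ≤ L ^ 0 * (2 * L) := by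
                intro m hm
                rw [Finset.mem_Ioc] at hm
                rw [pow_zero, one_mul]
                apply hEd
                rw [Finset.mem_Icc]
                exact ⟨by omega, hm.2⟩
              refine (Finset.sum_le_card_nsmul _ _ _ h2).trans ?_
              rw [Nat.card_Ioc, nsmul_eq_mul, Nat.cast_sub hk3]
            refine h1.trans ?_
            have h3 : (y : ℝ) - Y ≤ 2 * y / L ^ (A + 0 + 4) + 1 := by
              refine hk5.trans ?_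
              have : 2 * (y : ℝ) / M ≤ 2 * y / L ^ (A + 0 + 4) :=
                div_le_div_of_nonneg_left (by positivity) (by positivity) hM1
              linarith
            exact tail1 A 0 y L _ hL (by linarith) hy8 h3
          rw [hsplit] at hyc
          have h10 := hyc.trans_le (abs_add_le _ _)
          have h11 : (Y : ℝ) / (2 * L ^ A) ≤ (y : ℝ) / (2 * L ^ A) := by
            apply div_le_div_of_nonneg_right _ (by positivity)
            exact_mod_cast hk3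
          have h12 : (y : ℝ) / L ^ A = (y : ℝ) / (2 * L ^ A) + (y : ℝ) / (2 * L ^ A) := by
            field_simp
            ring
          linarith
  have hcard : (((Icc (-(N : ℤ)) N).filter (fun c => ∃ y : ℕ, Rg e N a y ∧
      (y : ℝ) / L ^ A < |∑ n ∈ Icc 1 y, Ed z (σ * (qv a b n + c))|)).card : ℝ) ≤
      1 + ∑ q ∈ I, ((Bad q).card : ℝ) := by
    have h1 := Finset.card_le_card hsub
    have h2 : ({0} ∪ I.biUnion Bad : Finset ℤ).card ≤ 1 + ∑ q ∈ I, (Bad q).card := by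
      refine (Finset.card_union_le _ _).trans ?_
      rw [Finset.card_singleton]
      exact Nat.add_le_add_left Finset.card_biUnion_le 1
    have h3 := h1.trans h2
    exact_mod_cast h3
  have hsum : ∑ q ∈ I, ((Bad q).card : ℝ) ≤ (Kk * 2) * (N / L ^ (A + (A + 0 + 4) + 5)) := by
    refine (Finset.sum_le_card_nsmul _ _ _ hBadcard).trans ?_
    rw [hI, Finset.card_product, Finset.card_range, nsmul_eq_mul]
    apply le_of_eq
    have : ({1, -1} : Finset ℤ).card = 2 := by decide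
    rw [this]
    push_cast
    ring
  have hfin : (Kk * 2) * ((N : ℝ) / L ^ (A + (A + 0 + 4) + 5)) ≤ (1 / 2) * (N / L ^ A) :=
    fin1 A 0 N L Kk hL (by linarith) hKkb
  have hone : (1 : ℝ) ≤ (1 / 2) * (N / L ^ A) := by
    have h1 : (2 : ℝ) ≤ N / L ^ A := by
      rw [le_div_iff₀ (by positivity)]
      exact hNA
    linarith
  have hfinal : (((Icc (-(N : ℤ)) N).filter (fun c => ∃ y : ℕ, Rg e N a y ∧
      (y : ℝ) / L ^ A < |∑ n ∈ Icc 1 y, Ed z (σ * (qv a b n + c))|)).card : ℝ) ≤ N / L ^ A := by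
    linarith
  convert hfinal using 2

end Pool.Agent.H79.Q.Key
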