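import Pool.Agent.H79.Q.Core

/-!
The formula for one polynomial, from the estimates for the reduced polynomials.
-/

set_option autoImplicit false

namespace Pool.Agent.H79.Q.One

open Finset Polynomial Filter Topology
open Pool.Agent.helper24_UT
open Pool.Agent.H373R2.T7 (pz mem_pz Vz Vz_pos Vz_inv_small ev_L')
open Pool.Agent.Results.MP_a1177c_nt.AllTriples (Admissible eps gcdProd partialC primeCount logSum eps_pos gcdProd_pos)
open Pool.Agent.H79.Q.Fac (qF qF_eval qF_deg sg_eq Pr Qa split limit)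
open Pool.Agent.H79.Q.Th (df tp)
open Pool.Agent.H79.Q.En (qv)
open Pool.Agent.H79.Q.Sh (iv iv_bd tv abel shift)
open Pool.Agent.H79.Q.Core
open Pool.Agent.H79.Q.Cst (GC)

/-- the reduced constant term -/
def c0 (a b c : ℤ) : ℤ := c - a * (b / (2 * a)) ^ 2 - (b % (2 * a)) * (b / (2 * a))

lemma red (a b c m : ℤ) : a * (m + b / (2 * a)) ^ 2 + (b % (2 * a)) * (m + b / (2 * a)) + c0 a b c = a * m ^ 2 + b * m + c := by
  have h := Int.emod_add_mul_ediv b (2 * a)
  unfold c0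
  linear_combination m * h

lemma disc (a b c : ℤ) : (b % (2 * a)) ^ 2 - 4 * a * c0 a b c = b ^ 2 - 4 * a * c := by
  have h := Int.emod_add_mul_ediv b (2 * a)
  unfold c0
  linear_combination (b % (2 * a) + 2 * a * (b / (2 * a)) + b) * h

lemma res_bd (a b : ℤ) (ha : 1 ≤ a) : |b % (2 * a)| ≤ 2 * a := by
  have h1 := Int.emod_nonneg b (show 2 * a ≠ 0 by omega)
  have h2 := Int.emod_lt_of_pos b (show 0 < 2 * a by omega)
  rw [abs_le]
  constructor <;> omega

lemma quo_bd (a b : ℤ) (ha : 1 ≤ a) : |b / (2 * a)| ≤ |b| := by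
  have h := Int.emod_add_mul_ediv b (2 * a)
  have h1 := Int.emod_nonneg b (show 2 * a ≠ 0 by omega)
  have h2 := Int.emod_lt_of_pos b (show 0 < 2 * a by omega)
  rcases le_or_gt 0 b with hb | hb
  · rw [abs_of_nonneg hb, abs_of_nonneg (Int.ediv_nonneg hb (by omega))]
    exact Int.ediv_le_self _ hb
  · have h3 : b / (2 * a) < 0 := Int.ediv_neg_of_neg_of_pos hb (by omega)
    rw [abs_of_neg hb, abs_of_neg h3]
    by_contra hcon
    push Not at hcon
    nlinarith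

lemma c0_bd (a b c : ℤ) (ha : 1 ≤ a) (X : ℕ) (hD : |b ^ 2 - 4 * a * c| ≤ (X : ℤ)) : |c0 a b c| ≤ a + X := by
  have h1 := disc a b c
  have h2 := res_bd a b ha
  have h3 : (b % (2 * a)) ^ 2 ≤ 4 * a ^ 2 := by
    have := sq_le_sq' (by have := (abs_le.1 h2).1; linarith : -(2 * a) ≤ b % (2 * a)) (abs_le.1 h2).2
    linarith
  have h4 : 4 * a * c0 a b c = (b % (2 * a)) ^ 2 - (b ^ 2 - 4 * a * c) := by linarith
  have h5 := abs_le.1 hD
  have h6 : 0 ≤ (b % (2 * a)) ^ 2 := sq_nonneg _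
  have hX : (0 : ℤ) ≤ X := Int.natCast_nonneg _
  rw [abs_le]
  constructor
  · by_contra hcon
    push Not at hcon
    have : 4 * a * c0 a b c ≤ 4 * a * (-(a + X) - 1) := mul_le_mul_of_nonneg_left (by omega) (by omega)
    nlinarith
  · by_contra hcon
    push Not at hcon
    have : 4 * a * (a + X + 1) ≤ 4 * a * c0 a b c := mul_le_mul_of_nonneg_left (by omega) (by omega)
    nlinarith

lemma eps_ge (a b : ℤ) : 1 ≤ eps a b := by
  unfold eps; split_ifs <;> norm_num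

lemma gcdProd_ge (a b : ℤ) : 1 ≤ gcdProd a b := by
  unfold gcdProd
  have h1 : ∏ p ∈ (Int.gcd a b).primeFactors.filter (fun p => 2 < p), (1 : ℝ) ≤
      ∏ p ∈ (Int.gcd a b).primeFactors.filter (fun p => 2 < p), (p : ℝ) / (p - 1) := by
    apply Finset.prod_le_prod
    · intro p _
      norm_num
    · intro p hp
      have : (2 : ℝ) < p := by exact_mod_cast (mem_filter.1 hp).2
      rw [one_le_div (by linarith)]
      linarith
  rwa [Finset.prod_const_one] at h1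

theorem one (e A B A1 A2 K X N z : ℕ) (Lx L : ℝ) (hLx : 1300 ≤ Lx) (hL1 : Lx ≤ L) (hL2 : L = Real.log N)
    (hX : 1 ≤ X) (hN : 2 ≤ N) (hN2 : 28 * X * Lx ^ (5 * B) ≤ N) (hA2 : A2 = A + B + 5) (hA1 : A2 + B + 1 ≤ A1)
    (hK : K = A2 + 2) (hz : 2 ≤ z) (hzB : L ^ B ≤ z) (hV : (Vz z)⁻¹ ≤ L)
    (hMT : ∀ F : Fin 1 → ℤ[X], (∀ i, (F i).natDegree ≤ 2) → ∀ y : ℕ, Real.exp (Real.sqrt L) ≤ y →
      |∑ n ∈ Icc 1 y, ∏ i, lz z ((F i).eval (n : ℤ)) - y * sg z F| ≤ y / L ^ A2)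
    (a b c : ℤ) (hadm : Admissible a b c) (hD : |b ^ 2 - 4 * a * c| ≤ (X : ℤ)) (haL : (a : ℝ) ≤ Lx ^ B)
    (hGC : GC K N z (b ^ 2 - 4 * a * c))
    (hg1 : ∀ T : ℕ, Key.Rg (2 * e) N a T → |∑ n ∈ Icc 1 T, df z (qv a (b % (2 * a)) n + c0 a b c)| ≤ T / L ^ A1)
    (hg2 : ∀ T : ℕ, Key.Rg (2 * e) N a T → |∑ n ∈ Icc 1 T, df z (qv a (-(b % (2 * a))) n + c0 a b c)| ≤ T / L ^ A1) :
    ∃ S : ℝ, 0 < S ∧ Tendsto (fun z => partialC a b c z) atTop (𝓝 S) ∧
      ∀ y : ℕ, (y : ℝ) ≤ Real.sqrt X * Lx ^ B → (|b| : ℝ) ≤ y * Lx ^ B →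
        (N : ℝ) ^ (1 / 6 + 1 / (2 * e : ℕ) : ℝ) * (2 * L) * L ^ A2 ≤ y → Real.exp (Real.sqrt L) * L * L ^ A2 ≤ y →
        |primeCount a b c y - eps a b * S * gcdProd a b * logSum a b c y| ≤
          eps a b * S * gcdProd a b * logSum a b c y / Lx ^ A := by
  have ha : 1 ≤ a := hadm.1
  have haR : (1 : ℝ) ≤ a := by exact_mod_cast ha
  have hLx1 : 1 ≤ Lx := by linarith
  have hLx0 : 0 < Lx := by linarith
  have hL0 : 0 < L := by linarith
  have hL1' : 1 ≤ L := by linarith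
  have hL1300 : 1300 ≤ L := by linarith
  have hLA2 : 0 < L ^ A2 := by positivity
  have haz : a ≤ z := by
    have h1 : (a : ℝ) ≤ z := haL.trans ((pow_le_pow_left₀ (by linarith) hL1 B).trans hzB)
    exact_mod_cast h1
  have hXR : (1 : ℝ) ≤ X := by exact_mod_cast hX
  obtain ⟨H, hH0, hHlim, hHz, hHge⟩ := hGC
  rw [← hL2] at hHz hHge
  obtain ⟨S, hS0, hSlim, hSz, hSge⟩ := limit a b c ha z haz H (1 / L ^ K) hH0 hHlim hHz
  refine ⟨S, hS0, hSlim, ?_⟩
  intro y hy1 hyb hyN hyE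
  have hy0 : (0 : ℝ) ≤ y := Nat.cast_nonneg y
  -- the constant
  have heps := eps_ge a b
  have hgcd := gcdProd_ge a b
  obtain ⟨Mc, hMc⟩ : ∃ Mc : ℝ, Mc = eps a b * S * gcdProd a b := ⟨_, rfl⟩
  have hMc0 : 0 < Mc := by rw [hMc]; positivity
  have hMcS : S ≤ Mc := by
    rw [hMc]
    calc S = 1 * S * 1 := by ring
      _ ≤ eps a b * S * gcdProd a b := by gcongr
  have hsg := sg_eq a b c hadm z hz haz
  obtain ⟨G, hG⟩ : ∃ G : ℝ, G = sg z (qF a b c) := ⟨_, rfl⟩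
  have hGL : G ≤ L := by rw [hG]; exact (sg_le z (qF a b c) rfl).trans hV
  have hGM : |G - Mc| ≤ Mc * (1 / L ^ K) := by
    have h1 : G - Mc = -(eps a b * gcdProd a b * (S - partialC a b c z)) := by
      rw [hG, hsg, hMc]
      ring
    rw [h1, abs_neg, abs_mul, abs_of_pos (by positivity : 0 < eps a b * gcdProd a b)]
    calc eps a b * gcdProd a b * |S - partialC a b c z| ≤ eps a b * gcdProd a b * (S * (1 / L ^ K)) :=
          mul_le_mul_of_nonneg_left hSz (by positivity)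
      _ = Mc * (1 / L ^ K) := by rw [hMc]; ring
  have hLK : 1 / L ^ K ≤ 1 / 2 := by
    apply one_div_le_one_div_of_le (by norm_num)
    calc (2 : ℝ) ≤ L := by linarith
      _ = L ^ 1 := (pow_one L).symm
      _ ≤ L ^ K := pow_le_pow_right₀ hL1' (by omega)
  have hMc2 : Mc ≤ 2 * L := by
    have h1 := (abs_le.1 hGM).1
    have h2 : Mc * (1 / L ^ K) ≤ Mc * (1 / 2) := mul_le_mul_of_nonneg_left hLK hMc0.le
    linarith
  -- the error
  obtain ⟨R, hR⟩ : ∃ R : ℝ, R = y / L ^ A2 := ⟨_, rfl⟩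
  have hR0 : 0 ≤ R := by rw [hR]; positivity
  have hNp : (1 : ℝ) ≤ (N : ℝ) ^ (1 / 6 + 1 / (2 * e : ℕ) : ℝ) := by
    apply Real.one_le_rpow
    · exact_mod_cast (by omega : 1 ≤ N)
    · positivity
  have hRN : (N : ℝ) ^ (1 / 6 + 1 / (2 * e : ℕ) : ℝ) * (2 * L) ≤ R := by
    rw [hR, le_div_iff₀ hLA2]
    exact hyN
  have hRE : Real.exp (Real.sqrt L) * L ≤ R := by
    rw [hR, le_div_iff₀ hLA2]
    exact hyE
  have hR2L : 2 * L ≤ R := by
    refine le_trans ?_ hRN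
    nlinarith
  -- the range of the shifted arguments
  obtain ⟨Tm, hTm⟩ : ∃ Tm : ℕ, Tm = ⌊2 * y * Lx ^ B⌋₊ := ⟨_, rfl⟩
  have hTmR : (Tm : ℝ) ≤ 2 * y * Lx ^ B := by
    rw [hTm]
    exact Nat.floor_le (by positivity)
  have hLB1 : 1 ≤ Lx ^ B := one_le_pow₀ hLx1
  have hyB : (y : ℝ) ≤ y * Lx ^ B := by nlinarith
  have hr := res_bd a b ha
  have hr' : |-(b % (2 * a))| ≤ 2 * a := by rw [abs_neg]; exact hr
  have hTN : ∀ T : ℕ, T ≤ Tm → 7 * a * (T : ℤ) ^ 2 ≤ N := by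
    intro T hT
    have h1 : (T : ℝ) ≤ 2 * y * Lx ^ B := le_trans (by exact_mod_cast hT) hTmR
    have h2 : (T : ℝ) ≤ 2 * (Real.sqrt X * Lx ^ B) * Lx ^ B := by
      refine h1.trans ?_
      gcongr
    have h3 : (T : ℝ) ^ 2 ≤ (2 * (Real.sqrt X * Lx ^ B) * Lx ^ B) ^ 2 := pow_le_pow_left₀ (Nat.cast_nonneg _) h2 2
    have h4 : (2 * (Real.sqrt X * Lx ^ B) * Lx ^ B) ^ 2 = 4 * X * Lx ^ (4 * B) := by
      have h5 : Real.sqrt X ^ 2 = X := Real.sq_sqrt (by linarith)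
      calc (2 * (Real.sqrt X * Lx ^ B) * Lx ^ B) ^ 2 = 4 * Real.sqrt X ^ 2 * (Lx ^ B) ^ 4 := by ring
        _ = 4 * X * Lx ^ (4 * B) := by rw [h5, ← pow_mul, mul_comm B 4]
    have h6 : 7 * (a : ℝ) * (T : ℝ) ^ 2 ≤ N := by
      calc 7 * (a : ℝ) * (T : ℝ) ^ 2 ≤ 7 * Lx ^ B * (4 * X * Lx ^ (4 * B)) := by
            rw [← h4]
            gcongr
        _ = 28 * X * Lx ^ (5 * B) := by
            have : Lx ^ (5 * B) = Lx ^ B * Lx ^ (4 * B) := by rw [← pow_add]; congr 1; ring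
            rw [this]
            ring
        _ ≤ N := hN2
    exact_mod_cast h6
  -- the constant term
  have hc0 : |c0 a b c| ≤ N := by
    refine (c0_bd a b c ha X hD).trans ?_
    have h1 : (a : ℝ) + X ≤ N := by
      refine le_trans ?_ hN2
      have h2 : Lx ^ B ≤ Lx ^ (5 * B) := pow_le_pow_right₀ hLx1 (by omega)
      have h3 : 1 ≤ Lx ^ (5 * B) := one_le_pow₀ hLx1
      have h4 : (a : ℝ) ≤ X * Lx ^ (5 * B) := by
        calc (a : ℝ) ≤ 1 * Lx ^ (5 * B) := by rw [one_mul]; exact haL.trans h2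
          _ ≤ X * Lx ^ (5 * B) := mul_le_mul_of_nonneg_right hXR (by positivity)
      have h5 : (X : ℝ) ≤ X * Lx ^ (5 * B) := by nlinarith
      have h6 : (0 : ℝ) ≤ X * Lx ^ (5 * B) := by positivity
      linarith
    exact_mod_cast h1
  have hc0' := abs_le.1 hc0
  -- sums over initial segments of the reduced polynomials
  have hseg : ∀ b' : ℤ, |b'| ≤ 2 * a →
      (∀ T : ℕ, Key.Rg (2 * e) N a T → |∑ n ∈ Icc 1 T, df z (qv a b' n + c0 a b c)| ≤ T / L ^ A1) →
      ∀ T : ℕ, T ≤ Tm → |∑ n ∈ Icc 1 T, df z (qv a b' n + c0 a b c)| ≤ R := by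
    intro b' hb' hg T hT
    by_cases hTl : (N : ℝ) ^ (1 / 6 + 1 / (2 * e : ℕ) : ℝ) ≤ T
    · refine (hg T ⟨hTl, hTN T hT⟩).trans ?_
      have h1 : (T : ℝ) ≤ 2 * y * Lx ^ B := le_trans (by exact_mod_cast hT) hTmR
      have h2 : 2 * L ^ B * L ^ A2 ≤ L ^ A1 := by
        calc 2 * L ^ B * L ^ A2 ≤ L * L ^ B * L ^ A2 := by gcongr; linarith
          _ = L ^ (A2 + B + 1) := by ring
          _ ≤ L ^ A1 := pow_le_pow_right₀ hL1' hA1
      rw [hR, div_le_div_iff₀ (by positivity) hLA2]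
      calc (T : ℝ) * L ^ A2 ≤ (2 * y * L ^ B) * L ^ A2 := by
            apply mul_le_mul_of_nonneg_right _ hLA2.le
            refine h1.trans ?_
            gcongr
        _ = y * (2 * L ^ B * L ^ A2) := by ring
        _ ≤ y * L ^ A1 := mul_le_mul_of_nonneg_left h2 hy0
    · push Not at hTl
      have h1 : ∀ n ∈ Icc 1 T, |df z (qv a b' n + c0 a b c)| ≤ 2 * L := by
        intro n hn
        rw [hL2]
        apply df_bd z _ N hN _ (by rw [← hL2]; exact hV)
        have h2 := abs_le.1 (Key.qv_bd a b' ha hb' T n hn)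
        have h3 := hTN T hT
        have h4 : (0 : ℤ) ≤ a * (T : ℤ) ^ 2 := by positivity
        rw [abs_le]
        constructor <;> linarith [h2.1, h2.2, hc0'.1, hc0'.2]
      calc |∑ n ∈ Icc 1 T, df z (qv a b' n + c0 a b c)| ≤ ∑ n ∈ Icc 1 T, |df z (qv a b' n + c0 a b c)| :=
            Finset.abs_sum_le_sum_abs _ _
        _ ≤ ∑ n ∈ Icc 1 T, 2 * L := Finset.sum_le_sum h1
        _ = T * (2 * L) := by rw [Finset.sum_const, Nat.card_Icc, Nat.add_sub_cancel, nsmul_eq_mul]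
        _ ≤ (N : ℝ) ^ (1 / 6 + 1 / (2 * e : ℕ) : ℝ) * (2 * L) := mul_le_mul_of_nonneg_right hTl.le (by linarith)
        _ ≤ R := hRN
  -- the shift
  have hk : |b / (2 * a)| ≤ (Tm : ℤ) ∧ ∀ T : ℕ, T ≤ y → |b / (2 * a) + T| ≤ (Tm : ℤ) := by
    have h1 : ((|b / (2 * a)| : ℤ) : ℝ) ≤ y * Lx ^ B := by
      refine le_trans ?_ hyb
      have := quo_bd a b ha
      have h2 : ((|b / (2 * a)| : ℤ) : ℝ) ≤ ((|b| : ℤ) : ℝ) := by exact_mod_cast this
      rw [Int.cast_abs (a := b)] at h2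
      exact h2
    have h3 : ∀ n : ℕ, (n : ℝ) ≤ 2 * y * Lx ^ B → n ≤ Tm := by
      intro n hn
      rw [hTm]
      exact Nat.le_floor hn
    constructor
    · have h4 := h3 (b / (2 * a)).natAbs (by
        have h5 : (((b / (2 * a)).natAbs : ℕ) : ℝ) = ((|b / (2 * a)| : ℤ) : ℝ) := by
          rw [Nat.cast_natAbs]
        rw [h5]
        linarith)
      rw [Int.abs_eq_natAbs]
      exact_mod_cast h4
    · intro T hT
      have hTR : (T : ℝ) ≤ y := by exact_mod_cast hT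
      have h4 := h3 (b / (2 * a) + T).natAbs (by
        have h5 : (((b / (2 * a) + T).natAbs : ℕ) : ℝ) = ((|b / (2 * a) + T| : ℤ) : ℝ) := by
          rw [Nat.cast_natAbs]
        have h6 : |b / (2 * a) + T| ≤ |b / (2 * a)| + T := by
          refine (abs_add_le _ _).trans ?_
          rw [abs_of_nonneg (Int.natCast_nonneg T)]
        have h7 : ((|b / (2 * a) + T| : ℤ) : ℝ) ≤ ((|b / (2 * a)| : ℤ) : ℝ) + T := by exact_mod_cast h6
        rw [h5]
        linarith)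
      rw [Int.abs_eq_natAbs]
      exact_mod_cast h4
  have hF0 : |df z (a * (0 : ℤ) ^ 2 + (b % (2 * a)) * 0 + c0 a b c)| ≤ R := by
    refine le_trans ?_ hR2L
    rw [hL2]
    apply df_bd z _ N hN _ (by rw [← hL2]; exact hV)
    have e0 : a * (0 : ℤ) ^ 2 + (b % (2 * a)) * 0 + c0 a b c = c0 a b c := by ring
    rw [e0]
    have : (0 : ℤ) ≤ N := Int.natCast_nonneg _
    linarith
  have hdf : ∀ T : ℕ, T ≤ y → |∑ m ∈ Icc 1 T, df z (a * (m : ℤ) ^ 2 + b * m + c)| ≤ 4 * R := by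
    intro T hT
    have h1 := shift (fun t => df z (a * t ^ 2 + (b % (2 * a)) * t + c0 a b c)) R Tm
      (fun T' hT' => hseg _ hr hg1 T' hT')
      (fun T' hT' => by
        have h2 := hseg _ hr' hg2 T' hT'
        refine le_trans (le_of_eq ?_) h2
        congr 1
        refine Finset.sum_congr rfl fun n _ => ?_
        congr 1
        unfold qv
        ring) hF0 (b / (2 * a)) T hk.1 (hk.2 T hT)
    refine le_trans (le_of_eq ?_) h1
    congr 1
    refine Finset.sum_congr rfl fun m _ => ?_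
    congr 1
    exact (red a b c m).symm
  -- the model
  have hmod : ∀ T : ℕ, T ≤ y → |∑ m ∈ Icc 1 T, lz z (a * (m : ℤ) ^ 2 + b * m + c) - T * G| ≤ R := by
    intro T hT
    have hTR : (T : ℝ) ≤ y := by exact_mod_cast hT
    by_cases hTl : Real.exp (Real.sqrt L) ≤ T
    · have h1 := hMT (qF a b c) (qF_deg a b c) T hTl
      have h2 : ∑ n ∈ Icc 1 T, ∏ i, lz z ((qF a b c i).eval (n : ℤ)) = ∑ m ∈ Icc 1 T, lz z (a * (m : ℤ) ^ 2 + b * m + c) := by
        refine Finset.sum_congr rfl fun n _ => ?_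
        rw [Fin.prod_univ_one, qF_eval]
      rw [h2, ← hG] at h1
      refine h1.trans ?_
      rw [hR]
      exact div_le_div_of_nonneg_right hTR hLA2.le
    · push Not at hTl
      have h1 : ∑ m ∈ Icc 1 T, lz z (a * (m : ℤ) ^ 2 + b * m + c) ≤ T * L := by
        calc ∑ m ∈ Icc 1 T, lz z (a * (m : ℤ) ^ 2 + b * m + c) ≤ ∑ m ∈ Icc 1 T, L :=
              Finset.sum_le_sum fun m _ => (lz_bd z _).2.trans hV
          _ = T * L := by rw [Finset.sum_const, Nat.card_Icc, Nat.add_sub_cancel, nsmul_eq_mul]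
      have h2 : 0 ≤ ∑ m ∈ Icc 1 T, lz z (a * (m : ℤ) ^ 2 + b * m + c) := Finset.sum_nonneg fun m _ => (lz_bd z _).1
      have h3 : 0 ≤ G := by
        have := (abs_le.1 hGM).1
        have h2 : Mc * (1 / L ^ K) ≤ Mc * (1 / 2) := mul_le_mul_of_nonneg_left hLK hMc0.le
        linarith
      have h4 : 0 ≤ T * G := by positivity
      have h5 : T * G ≤ T * L := mul_le_mul_of_nonneg_left hGL (Nat.cast_nonneg _)
      have h6 : (T : ℝ) * L ≤ R := (mul_le_mul_of_nonneg_right hTl.le hL0.le).trans hRE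
      rw [abs_le]
      constructor <;> linarith
  -- all together
  have hth : ∀ T : ℕ, T ≤ y → |∑ m ∈ Icc 1 T, tp (a * (m : ℤ) ^ 2 + b * m + c) - T * Mc| ≤ 6 * R := by
    intro T hT
    have hTR : (T : ℝ) ≤ y := by exact_mod_cast hT
    have h1 := hdf T hT
    have h2 := hmod T hT
    have h3 : |T * (G - Mc)| ≤ R := by
      rw [abs_mul, abs_of_nonneg (Nat.cast_nonneg T : (0 : ℝ) ≤ T)]
      calc (T : ℝ) * |G - Mc| ≤ y * (2 * L * (1 / L ^ K)) := by
            apply mul_le_mul hTR _ (abs_nonneg _) hy0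
            exact hGM.trans (mul_le_mul_of_nonneg_right hMc2 (by positivity))
        _ = (2 / L) * (y / L ^ A2) := by
            rw [hK, pow_add]
            field_simp
        _ ≤ 1 * (y / L ^ A2) := by
            apply mul_le_mul_of_nonneg_right _ (by positivity)
            rw [div_le_one hL0]
            linarith
        _ = R := by rw [hR, one_mul]
    have h4 : ∑ m ∈ Icc 1 T, tp (a * (m : ℤ) ^ 2 + b * m + c) - T * Mc =
        ∑ m ∈ Icc 1 T, df z (a * (m : ℤ) ^ 2 + b * m + c) +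
        (∑ m ∈ Icc 1 T, lz z (a * (m : ℤ) ^ 2 + b * m + c) - T * G) + T * (G - Mc) := by
      unfold df
      rw [Finset.sum_sub_distrib]
      ring
    rw [h4]
    rw [abs_le] at h1 h2 h3 ⊢
    constructor <;> linarith [h1.1, h1.2, h2.1, h2.2, h3.1, h3.2]
  have hcount := count a b c ha y Mc R hth
  have hlow := lower a b c y Mc R L (hth y le_rfl) (by
    intro m hm
    rw [hL2]
    apply tp_le _ N hN
    rw [← red a b c m]
    -- the size of the values
    have h1 := hk.2 m (mem_Icc.1 hm).2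
    obtain ⟨w, hw⟩ : ∃ w : ℕ, (b / (2 * a) + m).natAbs = w := ⟨_, rfl⟩
    have h2 : w ≤ Tm := by
      rw [Int.abs_eq_natAbs, hw] at h1
      exact_mod_cast h1
    have h3 := hTN w h2
    have h4 : (m + b / (2 * a)) ^ 2 = (w : ℤ) ^ 2 := by
      rw [← hw, Int.natAbs_sq]
      ring
    have h5 : |(m : ℤ) + b / (2 * a)| ≤ (w : ℤ) := by
      rw [← hw, Int.abs_eq_natAbs, add_comm]
    have h6 : |(b % (2 * a)) * ((m : ℤ) + b / (2 * a))| ≤ 2 * a * w := by
      rw [abs_mul]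
      exact mul_le_mul hr h5 (abs_nonneg _) (by omega)
    have h7 : (w : ℤ) ≤ (w : ℤ) ^ 2 := by
      rcases Nat.eq_zero_or_pos w with h | h
      · rw [h]; simp
      · have : (1 : ℤ) ≤ w := by exact_mod_cast h
        nlinarith
    have h8 : a * (w : ℤ) ≤ a * (w : ℤ) ^ 2 := mul_le_mul_of_nonneg_left h7 (by omega)
    have h9 : 0 ≤ a * (w : ℤ) ^ 2 := by positivity
    rw [h4]
    have h10 := abs_le.1 h6
    rw [abs_le]
    constructor <;> linarith [h10.1, h10.2, hc0'.1, hc0'.2])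
  rw [← hMc]
  -- lower bound for the constant
  have hMge : 1 / (2 * L ^ (B + 2)) ≤ Mc := by
    refine le_trans ?_ hMcS
    refine le_trans ?_ hSge
    have h1 : 1 / (2 * L ^ (B + 2)) = 1 / (2 * L ^ 2) / L ^ B := by
      rw [div_div]
      congr 1
      ring
    rw [h1]
    apply div_le_div₀ hH0.le hHge (by linarith)
    exact haL.trans (pow_le_pow_left₀ (by linarith) hL1 B)
  -- the comparison
  have hpw : 1300 * L ^ (A + B + 3) ≤ L ^ A2 := by
    have h1 : L ^ A2 = L ^ 2 * L ^ (A + B + 3) := by rw [← pow_add, hA2]; congr 1; ring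
    rw [h1]
    apply mul_le_mul_of_nonneg_right _ (by positivity)
    nlinarith
  have hyM : (y : ℝ) / (2 * L ^ (B + 2)) ≤ y * Mc := by
    calc (y : ℝ) / (2 * L ^ (B + 2)) = y * (1 / (2 * L ^ (B + 2))) := by ring
      _ ≤ y * Mc := mul_le_mul_of_nonneg_left hMge hy0
  have hRs : R ≤ (y : ℝ) / (1300 * L ^ (A + B + 3)) := by
    rw [hR]
    exact div_le_div_of_nonneg_left hy0 (by positivity) hpw
  have hLA : 1 ≤ L ^ A := one_le_pow₀ hL1'
  have hRs2 : R ≤ (y : ℝ) / (1300 * L ^ (B + 3)) := by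
    refine hRs.trans ?_
    apply div_le_div_of_nonneg_left hy0 (by positivity)
    apply mul_le_mul_of_nonneg_left _ (by norm_num)
    exact pow_le_pow_right₀ hL1' (by omega)
  obtain ⟨Q, hQ⟩ : ∃ Q : ℝ, Q = (y : ℝ) / L ^ (B + 3) := ⟨_, rfl⟩
  have hQ0 : 0 ≤ Q := by rw [hQ]; positivity
  have hQR : R ≤ Q / 1300 := by
    refine hRs2.trans (le_of_eq ?_)
    rw [hQ, div_div, mul_comm]
  have hQM : Q / 2 * L ≤ y * Mc := by
    refine le_trans (le_of_eq ?_) hyM
    rw [hQ]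
    have : L ^ (B + 3) = L ^ (B + 2) * L := pow_succ _ _
    rw [this]
    field_simp
  have hpc : Q / 8 ≤ primeCount a b c y := by
    have h1 : Q / 8 * (2 * L) ≤ 2 * L * primeCount a b c y := by
      refine le_trans ?_ hlow
      nlinarith
    have h2 : (2 * L) * (Q / 8) ≤ (2 * L) * primeCount a b c y := by linarith
    exact le_of_mul_le_mul_left h2 (by linarith)
  have hml : Q / 16 ≤ Mc * logSum a b c y := by
    have := (abs_le.1 hcount).2
    linarith
  refine hcount.trans ?_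
  have hLxA : Lx ^ A ≤ L ^ A := pow_le_pow_left₀ hLx0.le hL1 A
  have hfin : 78 * R * Lx ^ A ≤ Q / 16 := by
    have h1 : R * L ^ A ≤ Q / 1300 := by
      have h2 : R * L ^ A ≤ (y : ℝ) / (1300 * L ^ (A + B + 3)) * L ^ A :=
        mul_le_mul_of_nonneg_right hRs (by positivity)
      refine h2.trans (le_of_eq ?_)
      rw [hQ]
      have : L ^ (A + B + 3) = L ^ A * L ^ (B + 3) := by rw [← pow_add, add_assoc]
      rw [this]
      field_simp
    have h3 : R * Lx ^ A ≤ R * L ^ A := mul_le_mul_of_nonneg_left hLxA hR0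
    linarith
  rw [le_div_iff₀ (by positivity)]
  linarith

end Pool.Agent.H79.Q.One
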