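import Pool.Agent.H79.Q.Key
import Pool.Graph.R_pool_sql_team_seeded_620a6dc7.helper24_UT_.Thq

/-!
Primes with logarithmic weights minus the sieve model at the values of `a m² + b m + c`, for almost all `c`.
-/

set_option autoImplicit false

namespace Pool.Agent.H79.Q.Th

open Finset
open Pool.Agent.helper24_UT
open Pool.Agent.H373R2.T7 (lamI lamzI lamz Vz pz mem_pz ev_log' ev_L' Vz_pos)
open Pool.Agent.helper24_UT.Thq (RR RR_nonneg vM_eq lam_split lamz_split)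
open Pool.Agent.H79.Q.En (qv)
open Pool.Agent.H79.Q.Key (Rg qv_bd bad)

/-- the logarithm of `|v|` if `|v|` is a prime, `0` otherwise -/
noncomputable def tp (v : ℤ) : ℝ := if v.natAbs.Prime then Real.log (v.natAbs : ℝ) else 0

/-- primes minus model -/
noncomputable def df (z : ℕ) (v : ℤ) : ℝ := tp v - lz z v

lemma df_eq (z : ℕ) (hz : 2 ≤ z) (v : ℤ) : df z v = Ed z v + Ed z (-v) - RR v.natAbs := by
  unfold df tp
  rw [← lamz_split z hz]
  have e2 := lam_split v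
  have e3 := vM_eq v.natAbs
  unfold Ed
  linarith

/-- the values `n` in the range -/
def ns (N : ℕ) (a : ℤ) : Finset ℕ := (Icc 1 N).filter (fun n : ℕ => 7 * a * (n : ℤ) ^ 2 ≤ N)

/-- the sum over the `n` of the proper prime powers, divided by `n` -/
noncomputable def WW (N : ℕ) (a b c : ℤ) : ℝ := ∑ n ∈ ns N a, RR (qv a b n + c).natAbs / n

lemma WW_nonneg (N : ℕ) (a b c : ℤ) : 0 ≤ WW N a b c :=
  sum_nonneg fun _ _ => div_nonneg (RR_nonneg _) (Nat.cast_nonneg _)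

lemma sum_RR_le (N : ℕ) (a b c : ℤ) (ha : 1 ≤ a) (y : ℕ) (hy : 7 * a * (y : ℤ) ^ 2 ≤ N) :
    ∑ n ∈ Icc 1 y, RR (qv a b n + c).natAbs ≤ y * WW N a b c := by
  have hsub : Icc 1 y ⊆ ns N a := by
    intro n hn
    rw [mem_Icc] at hn
    unfold ns
    rw [mem_filter, mem_Icc]
    have h1 : (n : ℤ) ≤ y := by exact_mod_cast hn.2
    have h2 : (1 : ℤ) ≤ n := by exact_mod_cast hn.1
    have h3 : (n : ℤ) ^ 2 ≤ (y : ℤ) ^ 2 := by nlinarith
    have h4 : a * (n : ℤ) ^ 2 ≤ a * (y : ℤ) ^ 2 := mul_le_mul_of_nonneg_left h3 (by omega)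
    refine ⟨⟨hn.1, ?_⟩, by linarith⟩
    have h5 : (n : ℤ) ≤ a * (n : ℤ) ^ 2 := by nlinarith
    have : (n : ℤ) ≤ N := by nlinarith
    exact_mod_cast this
  unfold WW
  have h1 : ∑ n ∈ Icc 1 y, RR (qv a b n + c).natAbs / n ≤ ∑ n ∈ ns N a, RR (qv a b n + c).natAbs / n :=
    sum_le_sum_of_subset_of_nonneg hsub (fun _ _ _ => div_nonneg (RR_nonneg _) (Nat.cast_nonneg _))
  refine le_trans ?_ (mul_le_mul_of_nonneg_left h1 (Nat.cast_nonneg _))
  rw [mul_sum]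
  apply sum_le_sum
  intro n hn
  rw [mem_Icc] at hn
  have hn0 : (0 : ℝ) < n := by exact_mod_cast hn.1
  have hny : (n : ℝ) ≤ y := by exact_mod_cast hn.2
  rw [← mul_div_assoc, le_div_iff₀ hn0, mul_comm]
  exact mul_le_mul_of_nonneg_right hny (RR_nonneg _)

lemma sum_RR_c (X : ℕ) (v : ℤ) (hX : 1 ≤ X) (hv : |v| ≤ X) :
    ∑ c ∈ Icc (-(X : ℤ)) X, RR (v + c).natAbs ≤
      4 * √(((2 * X : ℕ) : ℝ)) * Real.log ((2 * X : ℕ) : ℝ) := by
  have h0 := Chebyshev.psi_sub_theta_le (x := ((2 * X : ℕ) : ℝ)) (by exact_mod_cast (by omega : 1 ≤ 2 * X))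
  rw [Chebyshev.psi_sub_theta_eq_sum_not_prime, Nat.floor_natCast] at h0
  have hv' := abs_le.1 hv
  have h1 : ∑ c ∈ Icc (-(X : ℤ)) X, RR (v + c).natAbs ≤ ∑ m ∈ Icc 0 (2 * X), 2 * RR m := by
    have hm : ∀ c ∈ Icc (-(X : ℤ)) X, (v + c).natAbs ∈ Icc 0 (2 * X) := by
      intro c hc
      rw [mem_Icc] at hc ⊢
      constructor
      · exact Nat.zero_le _
      · omega
    rw [← sum_fiberwise_of_maps_to hm]
    apply sum_le_sum
    intro m _
    have hc : ((Icc (-(X : ℤ)) X).filter (fun c : ℤ => (v + c).natAbs = m)).card ≤ 2 := by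
      have hs : (Icc (-(X : ℤ)) X).filter (fun c : ℤ => (v + c).natAbs = m) ⊆
          ({(m : ℤ) - v, -(m : ℤ) - v} : Finset ℤ) := by
        intro c hc
        rw [mem_filter] at hc
        rw [mem_insert, mem_singleton]
        omega
      exact (card_le_card hs).trans card_le_two
    calc ∑ c ∈ (Icc (-(X : ℤ)) X).filter (fun c : ℤ => (v + c).natAbs = m), RR (v + c).natAbs
        = ∑ _c ∈ (Icc (-(X : ℤ)) X).filter (fun c : ℤ => (v + c).natAbs = m), RR m := by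
          apply sum_congr rfl
          intro c hc
          rw [(mem_filter.1 hc).2]
      _ = (((Icc (-(X : ℤ)) X).filter (fun c : ℤ => (v + c).natAbs = m)).card : ℝ) * RR m := by
          rw [sum_const, nsmul_eq_mul]
      _ ≤ 2 * RR m := by
          apply mul_le_mul_of_nonneg_right _ (RR_nonneg _)
          exact_mod_cast hc
  have h2 : ∑ m ∈ Icc 0 (2 * X), 2 * RR m = 2 * ∑ m ∈ (Ioc 0 (2 * X)).filter (fun m => ¬ m.Prime), ArithmeticFunction.vonMangoldt m := by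
    rw [← mul_sum]
    congr 1
    rw [sum_filter]
    have h3 : Icc 0 (2 * X) = insert 0 (Ioc 0 (2 * X)) := by
      ext m
      simp only [mem_Icc, mem_insert, mem_Ioc]
      omega
    rw [h3, sum_insert (by simp)]
    have h4 : RR 0 = 0 := by
      unfold RR
      simp
    rw [h4, zero_add]
    apply sum_congr rfl
    intro m _
    unfold RR
    by_cases hp : m.Prime
    · rw [if_pos hp, if_neg (not_not.2 hp)]
    · rw [if_neg hp, if_pos hp]
  rw [h2] at h1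
  refine h1.trans ?_
  linarith

lemma sum_WW (X : ℕ) (hX : 1 ≤ X) (a b : ℤ) (ha : 1 ≤ a) (hb : |b| ≤ 2 * a) :
    ∑ c ∈ Icc (-(X : ℤ)) X, WW X a b c ≤
      (1 + Real.log X) * (4 * √(((2 * X : ℕ) : ℝ)) * Real.log ((2 * X : ℕ) : ℝ)) := by
  unfold WW
  rw [sum_comm]
  have hlog : 0 ≤ Real.log ((2 * X : ℕ) : ℝ) := Real.log_natCast_nonneg _
  have h1 : ∀ n ∈ ns X a, ∑ c ∈ Icc (-(X : ℤ)) X, RR (qv a b n + c).natAbs / n ≤
      (1 / (n : ℝ)) * (4 * √(((2 * X : ℕ) : ℝ)) * Real.log ((2 * X : ℕ) : ℝ)) := by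
    intro n hn
    unfold ns at hn
    rw [mem_filter, mem_Icc] at hn
    rw [← sum_div, div_eq_mul_one_div, mul_comm]
    apply mul_le_mul_of_nonneg_left _ (by positivity)
    apply sum_RR_c X _ hX
    refine (qv_bd a b ha hb n n (by rw [mem_Icc]; exact ⟨hn.1.1, le_rfl⟩)).trans ?_
    have : 0 ≤ a * (n : ℤ) ^ 2 := by positivity
    linarith [hn.2]
  refine (sum_le_sum h1).trans ?_
  rw [← sum_mul]
  have h2 : ∑ n ∈ ns X a, 1 / (n : ℝ) ≤ 1 + Real.log X := by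
    have h2 : ∑ n ∈ Icc 1 X, 1 / (n : ℝ) = ((harmonic X : ℚ) : ℝ) := by
      rw [harmonic_eq_sum_Icc]
      push_cast
      simp
    refine le_trans (sum_le_sum_of_subset_of_nonneg (filter_subset _ _) (fun _ _ _ => by positivity)) ?_
    rw [h2]
    exact harmonic_le_one_add_log _
  apply mul_le_mul_of_nonneg_right h2
  positivity

open Classical in
theorem bad2 (hLE : S_LE (1 / 3)) (e A B : ℕ) (he : 1 ≤ e) : ∃ E₀ : ℕ, ∀ E₁ : ℕ, ∃ N₀ : ℕ, ∀ N : ℕ, N₀ ≤ N →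
    ∀ z : ℕ, (Real.log N) ^ E₀ ≤ z → (z : ℝ) ≤ (Real.log N) ^ E₁ →
    ∀ a b : ℤ, 1 ≤ a → (a : ℝ) ≤ (Real.log N) ^ B → |b| ≤ 2 * a →
    (((Icc (-(N : ℤ)) N).filter (fun c => ∃ y : ℕ, Rg e N a y ∧
      (y : ℝ) / (Real.log N) ^ A < |∑ n ∈ Icc 1 y, df z (qv a b n + c)|)).card : ℝ) ≤ N / (Real.log N) ^ A := by
  obtain ⟨E₀, hE₀⟩ := bad hLE e (A + 3) B he
  refine ⟨E₀ + 1, fun E₁ => ?_⟩
  obtain ⟨N₁, hN₁⟩ := hE₀ E₁
  obtain ⟨N₃, hN₃⟩ := ev_L' 100
  obtain ⟨N₄, hN₄⟩ := ev_log' (2 * A + 8) 32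
  refine ⟨N₁ + N₃ + N₄ + 2, ?_⟩
  intro X hX z hz1 hz2 a b ha haL hb
  have hXr : (2 : ℝ) ≤ X := by exact_mod_cast (by omega : 2 ≤ X)
  have hX0 : (0 : ℝ) < X := by linarith
  have hL' := hN₃ X (by omega)
  have hsm := hN₄ X (by omega)
  obtain ⟨L, hL⟩ : ∃ L : ℝ, L = Real.log X := ⟨_, rfl⟩
  rw [← hL] at hL' hsm hz1 hz2
  have hL0 : 0 < L := by linarith
  have hL1 : 1 ≤ L := by linarith
  have hz0 : L ^ E₀ ≤ z := (pow_le_pow_right₀ hL1 (by omega)).trans hz1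
  have hz2' : (2 : ℕ) ≤ z := by
    have : (2 : ℝ) ≤ z := by
      calc (2 : ℝ) ≤ L := by linarith
        _ = L ^ 1 := (pow_one _).symm
        _ ≤ L ^ (E₀ + 1) := pow_le_pow_right₀ hL1 (by omega)
        _ ≤ z := hz1
    exact_mod_cast this
  have hBp := hN₁ X (by omega) z (by rw [← hL]; exact hz0) (by rw [← hL]; exact hz2) a b ha haL hb 1 (Or.inl rfl)
  have hBm := hN₁ X (by omega) z (by rw [← hL]; exact hz0) (by rw [← hL]; exact hz2) a b ha haL hb (-1) (Or.inr rfl)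
  rw [← hL] at hBp hBm ⊢
  set Bp := (Icc (-(X : ℤ)) X).filter (fun c => ∃ y : ℕ, Rg e X a y ∧
      (y : ℝ) / L ^ (A + 3) < |∑ n ∈ Icc 1 y, Ed z (1 * (qv a b n + c))|) with hBpd
  set Bm := (Icc (-(X : ℤ)) X).filter (fun c => ∃ y : ℕ, Rg e X a y ∧
      (y : ℝ) / L ^ (A + 3) < |∑ n ∈ Icc 1 y, Ed z (-1 * (qv a b n + c))|) with hBmd
  set B2 := (Icc (-(X : ℤ)) X).filter (fun c => 1 / L ^ (A + 3) < WW X a b c) with hB2d
  have hB2 : (B2.card : ℝ) ≤ X / L ^ (A + 3) := by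
    have h1 : (B2.card : ℝ) * (1 / L ^ (A + 3)) ≤ ∑ c ∈ Icc (-(X : ℤ)) X, WW X a b c := by
      calc (B2.card : ℝ) * (1 / L ^ (A + 3)) = ∑ _c ∈ B2, (1 / L ^ (A + 3)) := by
            rw [sum_const, nsmul_eq_mul]
        _ ≤ ∑ c ∈ B2, WW X a b c := sum_le_sum fun c hc => (mem_filter.1 hc).2.le
        _ ≤ _ := sum_le_sum_of_subset_of_nonneg (filter_subset _ _) (fun c _ _ => WW_nonneg _ _ _ _)
    have h2 := h1.trans (sum_WW X (by omega) a b ha hb)
    have h3 : √(((2 * X : ℕ) : ℝ)) ≤ 2 * √(X : ℝ) := by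
      have : ((2 * X : ℕ) : ℝ) = 2 * X := by push_cast; ring
      rw [this, Real.sqrt_mul (by norm_num)]
      apply mul_le_mul_of_nonneg_right _ (Real.sqrt_nonneg _)
      rw [Real.sqrt_le_left (by norm_num)]
      norm_num
    have h4 : Real.log ((2 * X : ℕ) : ℝ) ≤ 2 * L := by
      have h5 : ((2 * X : ℕ) : ℝ) ≤ (X : ℝ) ^ 2 := by
        push_cast
        nlinarith
      calc Real.log ((2 * X : ℕ) : ℝ) ≤ Real.log ((X : ℝ) ^ 2) :=
            Real.log_le_log (by push_cast; linarith) h5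
        _ = 2 * L := by rw [Real.log_pow, hL]; push_cast; ring
    have h4' : 0 ≤ Real.log ((2 * X : ℕ) : ℝ) := Real.log_natCast_nonneg _
    rw [← hL] at h2
    have h6 : (1 + L) * (4 * √(((2 * X : ℕ) : ℝ)) * Real.log ((2 * X : ℕ) : ℝ)) ≤
        (2 * L) * (4 * (2 * √(X : ℝ)) * (2 * L)) := by
      gcongr
      linarith
    have h7 := h2.trans h6
    rw [mul_one_div, div_le_iff₀ (by positivity)] at h7
    rw [le_div_iff₀ (by positivity)]
    calc (B2.card : ℝ) * L ^ (A + 3) ≤ (2 * L * (4 * (2 * √(X : ℝ)) * (2 * L)) * L ^ (A + 3)) * L ^ (A + 3) := by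
          apply mul_le_mul_of_nonneg_right h7 (by positivity)
      _ = √(X : ℝ) * (32 * L ^ (2 * A + 8)) := by ring
      _ ≤ √(X : ℝ) * √(X : ℝ) := by
          apply mul_le_mul_of_nonneg_left hsm (Real.sqrt_nonneg _)
      _ = X := Real.mul_self_sqrt hX0.le
  have hsub : (Icc (-(X : ℤ)) X).filter (fun c => ∃ y : ℕ, Rg e X a y ∧
      (y : ℝ) / L ^ A < |∑ n ∈ Icc 1 y, df z (qv a b n + c)|) ⊆ (Bp ∪ Bm) ∪ B2 := by
    intro c hc
    rw [mem_filter] at hc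
    obtain ⟨hcX, y, hy1, hy3⟩ := hc
    by_contra hno
    rw [mem_union, mem_union, not_or, not_or, hBpd, hBmd, hB2d, mem_filter, mem_filter, mem_filter] at hno
    obtain ⟨⟨hn1, hn2⟩, hn3⟩ := hno
    have k1 : |∑ n ∈ Icc 1 y, Ed z (1 * (qv a b n + c))| ≤ (y : ℝ) / L ^ (A + 3) := by
      by_contra hh
      push Not at hh
      exact hn1 ⟨hcX, y, hy1, hh⟩
    have k2 : |∑ n ∈ Icc 1 y, Ed z (-1 * (qv a b n + c))| ≤ (y : ℝ) / L ^ (A + 3) := by
      by_contra hh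
      push Not at hh
      exact hn2 ⟨hcX, y, hy1, hh⟩
    have k3 : WW X a b c ≤ 1 / L ^ (A + 3) := by
      by_contra hh
      push Not at hh
      exact hn3 ⟨hcX, hh⟩
    have k4 := sum_RR_le X a b c ha y hy1.2
    have k5 : 0 ≤ ∑ n ∈ Icc 1 y, RR (qv a b n + c).natAbs := sum_nonneg fun _ _ => RR_nonneg _
    have k6 : (y : ℝ) * WW X a b c ≤ y / L ^ (A + 3) := by
      calc (y : ℝ) * WW X a b c ≤ y * (1 / L ^ (A + 3)) := mul_le_mul_of_nonneg_left k3 (Nat.cast_nonneg _)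
        _ = _ := by ring
    have k7 : ∑ n ∈ Icc 1 y, df z (qv a b n + c) = ∑ n ∈ Icc 1 y, Ed z (1 * (qv a b n + c)) +
        ∑ n ∈ Icc 1 y, Ed z (-1 * (qv a b n + c)) - ∑ n ∈ Icc 1 y, RR (qv a b n + c).natAbs := by
      rw [← sum_add_distrib, ← sum_sub_distrib]
      refine sum_congr rfl fun n _ => ?_
      rw [df_eq z hz2', one_mul, neg_one_mul]
    have k8 : |∑ n ∈ Icc 1 y, df z (qv a b n + c)| ≤ 3 * ((y : ℝ) / L ^ (A + 3)) := by
      rw [k7]
      rw [abs_le] at k1 k2 ⊢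
      constructor
      · linarith [k1.1, k2.1]
      · linarith [k1.2, k2.2]
    have k9 : 3 * ((y : ℝ) / L ^ (A + 3)) ≤ (y : ℝ) / L ^ A := by
      have : (y : ℝ) / L ^ A = (y / L ^ (A + 3)) * L ^ 3 := by
        field_simp
        ring
      rw [this, mul_comm]
      apply mul_le_mul_of_nonneg_left _ (by positivity)
      nlinarith [pow_le_pow_left₀ (by norm_num) hL' 3]
    linarith
  have hc : (((Icc (-(X : ℤ)) X).filter (fun c => ∃ y : ℕ, Rg e X a y ∧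
      (y : ℝ) / L ^ A < |∑ n ∈ Icc 1 y, df z (qv a b n + c)|)).card : ℝ) ≤ ((Bp.card : ℝ) + Bm.card) + B2.card := by
    have h1 := (card_le_card hsub).trans (card_union_le _ _)
    have h2 := card_union_le Bp Bm
    exact_mod_cast h1.trans (Nat.add_le_add_right h2 _)
  refine hc.trans ?_
  have h9 : 3 * ((X : ℝ) / L ^ (A + 3)) ≤ (X : ℝ) / L ^ A := by
    have : (X : ℝ) / L ^ A = (X / L ^ (A + 3)) * L ^ 3 := by
      field_simp
      ring
    rw [this, mul_comm]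
    apply mul_le_mul_of_nonneg_left _ (by positivity)
    nlinarith [pow_le_pow_left₀ (by norm_num) hL' 3]
  linarith

end Pool.Agent.H79.Q.Th
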